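import Mathlib
import Pool.Agent.NashW.Gen3

/-!
# Linear forests and Hamilton cycles

`LFor E F`: `F` is a linear forest in the digraph `E`. The reduction theorem `red`: if all
outdegrees outside a set `X` are large and some linear forest of `E` has an edge leaving every
vertex of `X` and an edge entering every vertex of small indegree, then `E` has a Hamilton cycle.
-/

set_option autoImplicit false

namespace Pool.Agent.NashF

open Finset Pool.Agent.NashW

universe w

/-- `F` is a linear forest contained in the digraph `E`: at most one edge leaves and at most one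
edge enters each vertex, and there is no cycle (some height function increases along `F`) -/
structure LFor {V : Type w} (E F : V → V → Prop) : Prop where
  sub : ∀ a b, F a b → E a b
  fn : ∀ a b c, F a b → F a c → b = c
  inj : ∀ a b c, F a c → F b c → a = b
  ht : ∃ h : V → ℕ, ∀ a b, F a b → h a < h b

/-- some linear forest leaves every vertex of `X` and enters every vertex of `K` -/
def Cov {V : Type w} (E : V → V → Prop) (X K : Finset V) : Prop :=
  ∃ F : V → V → Prop, LFor E F ∧ (∀ x ∈ X, ∃ b, F x b) ∧ ∀ k ∈ K, ∃ a, F a k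

section contr

variable {V : Type w} {E F : V → V → Prop}

/-- the linear forest after contraction of its edge `x → y` -/
def Fc (F : V → V → Prop) (x y : V) (a b : {v : V // v ≠ y}) : Prop := F (role x y a) b.1

theorem role_self (x y : V) (a : {v : V // v ≠ y}) (h : a.1 = x) : role x y a = y := by
  unfold role; rw [if_pos h]

theorem role_other (x y : V) (a : {v : V // v ≠ y}) (h : a.1 ≠ x) : role x y a = a.1 := by
  unfold role; rw [if_neg h]

theorem LFor.contr (h : LFor E F) {x y : V} (hxy : F x y) : LFor (Ctr E x y) (Fc F x y) := by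
  obtain ⟨g, hg⟩ := h.ht
  have key : ∀ a b : {v : V // v ≠ y}, Fc F x y a b → g a.1 < g b.1 := by
    intro a b hab
    unfold Fc at hab
    by_cases ha : a.1 = x
    · rw [role_self x y a ha] at hab
      rw [ha]
      exact lt_trans (hg _ _ hxy) (hg _ _ hab)
    · rw [role_other x y a ha] at hab
      exact hg _ _ hab
  refine ⟨?_, ?_, ?_, ⟨fun a => g a.1, key⟩⟩
  · intro a b hab
    refine ⟨?_, ?_⟩
    · intro e
      have := key a b hab
      rw [e] at this
      exact lt_irrefl _ this
    · unfold Fc at hab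
      by_cases ha : a.1 = x
      · rw [role_self x y a ha] at hab
        exact Or.inl ⟨ha, h.sub _ _ hab⟩
      · rw [role_other x y a ha] at hab
        exact Or.inr ⟨ha, h.sub _ _ hab⟩
  · intro a b c hab hac
    exact Subtype.ext (h.fn _ _ _ hab hac)
  · intro a b c hac hbc
    exact role_inj x y (h.inj _ _ _ hac hbc)

theorem fc_tail (h : LFor E F) {x y : V} (hxy : F x y) (a : {v : V // v ≠ y})
    (ha : ∃ b, F (role x y a) b) : ∃ b, Fc F x y a b := by
  obtain ⟨b, hb⟩ := ha
  have hby : b ≠ y := by
    rintro rfl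
    have h1 : x ≠ b := by
      rintro rfl
      obtain ⟨g, hg⟩ := h.ht
      exact lt_irrefl _ (hg _ _ hxy)
    exact role_ne x b h1 a (h.inj _ _ _ hb hxy)
  exact ⟨⟨b, hby⟩, hb⟩

theorem fc_head (h : LFor E F) {x y : V} (hxy : F x y) (v : {v : V // v ≠ y})
    (hv : ∃ a, F a v.1) : ∃ a, Fc F x y a v := by
  obtain ⟨a, ha⟩ := hv
  have hne : x ≠ y := by
    rintro rfl
    obtain ⟨g, hg⟩ := h.ht
    exact lt_irrefl _ (hg _ _ hxy)
  have hax : a ≠ x := by
    rintro rfl
    exact v.2 (h.fn _ _ _ ha hxy)
  obtain ⟨a', ha'⟩ := role_surj x y hne a hax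
  refine ⟨a', ?_⟩
  unfold Fc
  rw [ha']
  exact ha

theorem LFor.mono {E' : V → V → Prop} (h : LFor E F) (hle : ∀ a b, E a b → E' a b) :
    LFor E' F :=
  ⟨fun a b hab => hle _ _ (h.sub _ _ hab), h.fn, h.inj, h.ht⟩

theorem LFor.ne (h : LFor E F) {x y : V} (hxy : F x y) : x ≠ y := by
  rintro rfl
  obtain ⟨g, hg⟩ := h.ht
  exact lt_irrefl _ (hg _ _ hxy)

/-- lifting a linear forest from a contraction -/
theorem Cov.lift {x y : V} (hxy : x ≠ y) (hE : E x y) {X K : Finset V}
    {X' K' : Finset {v : V // v ≠ y}}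
    (hX : ∀ a : {v : V // v ≠ y}, role x y a ∈ X → a ∈ X')
    (hK : ∀ a : {v : V // v ≠ y}, a.1 ∈ K → a ∈ K')
    (h : Cov (Ctr E x y) X' K') : Cov E X K := by
  classical
  obtain ⟨F', hF', hT, hH⟩ := h
  obtain ⟨g, hg⟩ := hF'.ht
  refine ⟨fun a b => (a = x ∧ b = y) ∨
    ∃ a' b' : {v : V // v ≠ y}, role x y a' = a ∧ b'.1 = b ∧ F' a' b', ⟨?_, ?_, ?_, ?_⟩, ?_, ?_⟩
  · rintro a b (⟨rfl, rfl⟩ | ⟨a', b', rfl, rfl, hab⟩)
    · exact hE
    · obtain ⟨_, h1 | h1⟩ := hF'.sub _ _ hab
      · rw [role_self x y a' h1.1]; exact h1.2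
      · rw [role_other x y a' h1.1]; exact h1.2
  · rintro a b c (⟨rfl, rfl⟩ | ⟨a', b', rfl, rfl, hab⟩) (⟨h1, rfl⟩ | ⟨a'', c', h1, rfl, hac⟩)
    · rfl
    · exact absurd h1 (role_ne _ _ hxy a'')
    · exact absurd h1 (role_ne _ _ hxy a')
    · have : a'' = a' := role_inj x y h1
      subst this
      exact congrArg Subtype.val (hF'.fn _ _ _ hab hac)
  · rintro a b c (⟨rfl, rfl⟩ | ⟨a', c', rfl, rfl, hac⟩) (⟨rfl, h1⟩ | ⟨b', c'', rfl, h1, hbc⟩)
    · rfl
    · exact absurd h1 c''.2
    · exact absurd h1 c'.2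
    · have : c'' = c' := Subtype.ext h1
      subst this
      rw [hF'.inj _ _ _ hac hbc]
  · refine ⟨fun v => if h : v ≠ y then 2 * g ⟨v, h⟩ else 2 * g ⟨x, hxy⟩ + 1, ?_⟩
    rintro a b (⟨rfl, rfl⟩ | ⟨a', b', rfl, rfl, hab⟩)
    · simp only [ne_eq, not_true_eq_false, dite_false, hxy, not_false_eq_true, dite_true]
      omega
    · have h1 := hg _ _ hab
      have h2 : (b'.1 ≠ y) := b'.2
      by_cases ha : a'.1 = x
      · rw [role_self x y a' ha]
        have h3 : a' = ⟨x, hxy⟩ := Subtype.ext ha
        rw [h3] at h1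
        simp only [ne_eq, not_true_eq_false, dite_false]
        rw [dif_pos h2]
        have h4 : (⟨b'.1, h2⟩ : {v : V // v ≠ y}) = b' := rfl
        rw [h4]
        omega
      · rw [role_other x y a' ha]
        have h2' : (a'.1 ≠ y) := a'.2
        simp only
        rw [dif_pos h2, dif_pos h2']
        have h4 : (⟨b'.1, h2⟩ : {v : V // v ≠ y}) = b' := rfl
        have h5 : (⟨a'.1, h2'⟩ : {v : V // v ≠ y}) = a' := rfl
        rw [h4, h5]
        omega
  · intro a ha
    by_cases hax : a = x
    · exact ⟨y, Or.inl ⟨hax, rfl⟩⟩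
    · obtain ⟨a', ha'⟩ := role_surj x y hxy a hax
      obtain ⟨b, hb⟩ := hT a' (hX a' (by rw [ha']; exact ha))
      exact ⟨b.1, Or.inr ⟨a', b, ha', rfl, hb⟩⟩
  · intro k hk
    by_cases hky : k = y
    · exact ⟨x, Or.inl ⟨rfl, hky⟩⟩
    · obtain ⟨a, ha⟩ := hH ⟨k, hky⟩ (hK _ hk)
      exact ⟨role x y a, Or.inr ⟨a, ⟨k, hky⟩, rfl, rfl, ha⟩⟩

theorem Cov.mono {X K X' K' : Finset V} (h : Cov E X K) (hX : X' ⊆ X) (hK : K' ⊆ K) :
    Cov E X' K' := by
  obtain ⟨F, h1, h2, h3⟩ := h
  exact ⟨F, h1, fun x hx => h2 x (hX hx), fun k hk => h3 k (hK hk)⟩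

end contr

/-- every vertex outside `K` receives all possible edges, and a linear forest enters every vertex
of `K` -/
theorem closed_F : ∀ (n : ℕ) (V : Type w) [Fintype V] (E F : V → V → Prop) (K : Finset V),
    Fintype.card V = n → 2 ≤ n → (∀ v, ¬ E v v) → LFor E F → (∀ v ∈ K, ∃ a, F a v) →
    (∀ v, v ∉ K → ∀ u, u ≠ v → E u v) → HC E := by
  intro n
  induction n with
  | zero => intro V _ E F K _ h; omega
  | succ n ih =>
    intro V _ E F K hcard hn hloop hF hK hfull
    classical
    by_cases hKe : K = ∅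
    · apply hc_complete (by omega)
      intro u v huv
      exact hfull v (by simp [hKe]) u huv
    obtain ⟨y, hyK⟩ := Finset.nonempty_iff_ne_empty.mpr hKe
    obtain ⟨x, hxy⟩ := hK y hyK
    have hne : x ≠ y := hF.ne hxy
    by_cases hn2 : n + 1 = 2
    · have hxK : x ∉ K := by
        intro hxK
        obtain ⟨z, hz⟩ := hK x hxK
        have hzx := hF.ne hz
        have hzy : z = y := by
          by_contra hcon
          have h3 : ({z, x, y} : Finset V).card ≤ Fintype.card V := Finset.card_le_univ _
          rw [Finset.card_insert_of_notMem (by simp [hzx, hcon]),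
            Finset.card_insert_of_notMem (by simp [hne]), Finset.card_singleton] at h3
          omega
        subst hzy
        obtain ⟨g, hg⟩ := hF.ht
        exact lt_irrefl _ (lt_trans (hg _ _ hxy) (hg _ _ hz))
      have hall : ∀ v, v = x ∨ v = y := by
        intro v
        by_contra hcon
        push Not at hcon
        have h3 : ({v, x, y} : Finset V).card ≤ Fintype.card V := Finset.card_le_univ _
        rw [Finset.card_insert_of_notMem (by simp [hcon.1, hcon.2]),
          Finset.card_insert_of_notMem (by simp [hne]), Finset.card_singleton] at h3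
        omega
      apply hc_complete (by omega)
      intro u v huv
      rcases hall v with rfl | rfl
      · exact hfull _ hxK u huv
      · rcases hall u with rfl | rfl
        · exact hF.sub _ _ hxy
        · exact absurd rfl huv
    · apply hc_of_ctr hne (hF.sub _ _ hxy)
      have hc' := card_ctr (V := V) y
      apply ih {v : V // v ≠ y} (Ctr E x y) (Fc F x y) (K.subtype (fun v => v ≠ y)) (by omega)
        (by omega) (ctr_loop x y) (hF.contr hxy)
      · intro v hv
        rw [Finset.mem_subtype] at hv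
        exact fc_head hF hxy v (hK _ hv)
      · intro v hv a hav
        have hvK : v.1 ∉ K := fun h => hv (by rw [Finset.mem_subtype]; exact h)
        refine ⟨hav, ?_⟩
        by_cases hau : a.1 = x
        · exact Or.inl ⟨hau, hfull v.1 hvK y (fun h => v.2 h.symm)⟩
        · exact Or.inr ⟨hau, hfull v.1 hvK a.1 (fun h => hav (Subtype.ext h))⟩

open Classical in
/-- no exceptional rows: all outdegrees at least `δ ≥ n/2`, and a linear forest enters every vertex
of indegree less than `n - 1 - δ` -/
theorem red_base {V : Type w} [Fintype V] (δ : ℕ) (F : V → V → Prop) :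
    ∀ (E : V → V → Prop), (∀ v, ¬ E v v) → LFor E F →
    (∀ v, ideg E v + 1 + δ < Fintype.card V → ∃ a, F a v) →
    (∀ v, δ ≤ od E v) → Fintype.card V ≤ 2 * δ → 2 ≤ Fintype.card V → HC E := by
  intro E
  induction hm : (univ.filter (fun p : V × V => ¬ E p.1 p.2)).card using Nat.strong_induction_on
    generalizing E with
  | _ m ih =>
  intro hloop hF hK hδ h2 hn
  by_cases hex : ∃ e s, e ≠ s ∧ ¬ E e s ∧ Fintype.card V ≤ ideg E s + δ + 1
  · obtain ⟨e, s, hes, hnE, hsdeg⟩ := hex
    obtain ⟨E', hE'⟩ : ∃ E' : V → V → Prop, ∀ a b, E' a b ↔ (E a b ∨ (a = e ∧ b = s)) :=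
      ⟨_, fun _ _ => Iff.rfl⟩
    have hle : ∀ a b, E a b → E' a b := fun a b h => (hE' a b).mpr (Or.inl h)
    have hHC' : HC E' := by
      refine ih _ ?_ E' rfl ?_ (hF.mono hle) ?_ ?_ h2 hn
      · rw [← hm]
        apply Finset.card_lt_card
        rw [Finset.ssubset_iff_of_subset]
        · refine ⟨(e, s), ?_, ?_⟩
          · rw [Finset.mem_filter]; exact ⟨Finset.mem_univ _, hnE⟩
          · rw [Finset.mem_filter]; rintro ⟨_, h⟩; exact h ((hE' _ _).mpr (Or.inr ⟨rfl, rfl⟩))
        · intro p hp
          rw [Finset.mem_filter] at hp ⊢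
          exact ⟨hp.1, fun h => hp.2 (hle _ _ h)⟩
      · intro v hv
        rcases (hE' v v).mp hv with h | ⟨h1, h3⟩
        · exact hloop v h
        · exact hes (h1.symm.trans h3)
      · intro v hv
        apply hK v
        refine lt_of_le_of_lt ?_ hv
        have : ideg E v ≤ ideg E' v := by
          unfold ideg
          apply Finset.card_le_card
          intro w hw
          rw [Finset.mem_filter] at hw ⊢
          exact ⟨hw.1, hle _ _ hw.2⟩
        omega
      · intro v
        refine le_trans (hδ v) ?_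
        unfold od
        apply Finset.card_le_card
        intro w hw
        rw [Finset.mem_filter] at hw ⊢
        exact ⟨hw.1, hle _ _ hw.2⟩
    rcases path_of_added hE' hHC' with h | ⟨L, hL, hLs⟩
    · exact h
    · exact closure_thm hloop δ hδ h2 hn hL hLs hsdeg
  · push Not at hex
    apply closed_F (Fintype.card V) V E F
      (univ.filter (fun s => ideg E s + 1 + δ < Fintype.card V)) rfl hn hloop hF
    · intro v hv
      rw [Finset.mem_filter] at hv
      exact hK v hv.2
    · intro v hv u huv
      by_contra hcon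
      apply hv
      rw [Finset.mem_filter]
      have := hex u v huv hcon
      exact ⟨Finset.mem_univ _, by omega⟩

/-- **Reduction theorem.** -/
theorem red (δ : ℕ) : ∀ (m : ℕ) (V : Type w) [Fintype V] (E F : V → V → Prop) (X : Finset V),
    X.card = m → (∀ v, ¬ E v v) → LFor E F → (∀ x ∈ X, ∃ b, F x b) →
    (∀ v, ideg E v + 1 + δ < Fintype.card V → ∃ a, F a v) →
    (∀ v, v ∉ X → δ + m ≤ od E v) → Fintype.card V ≤ 2 * δ + m → m + 2 ≤ Fintype.card V →
    HC E := by
  intro m
  induction m with
  | zero =>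
    intro V _ E F X hX hloop hF _ hK hδ h2 hn
    have hXe : X = ∅ := Finset.card_eq_zero.mp hX
    apply red_base δ F E hloop hF hK ?_ (by omega) (by omega)
    intro v
    have := hδ v (by simp [hXe])
    omega
  | succ m ih =>
    intro V _ E F X hX hloop hF hT hK hδ h2 hn
    classical
    obtain ⟨x, hxX⟩ : X.Nonempty := by rw [← Finset.card_pos]; omega
    obtain ⟨y, hxy⟩ := hT x hxX
    have hne : x ≠ y := hF.ne hxy
    have hc' := card_ctr (V := V) y
    apply hc_of_ctr hne (hF.sub _ _ hxy)
    apply ih {v : V // v ≠ y} (Ctr E x y) (Fc F x y) (pre x y X) ?_ (ctr_loop x y) (hF.contr hxy)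
    · intro a ha
      rw [mem_pre] at ha
      exact fc_tail hF hxy a (hT _ ha)
    · intro v hv
      apply fc_head hF hxy v
      apply hK
      have := ctr_ideg_le hloop x y v
      omega
    · intro v hv
      rw [mem_pre] at hv
      have h1 := hδ _ hv
      have h3 := role_od hloop x y hne v
      omega
    · omega
    · omega
    · rw [card_pre x y hne X, Finset.card_erase_of_mem hxX]
      omega

end Pool.Agent.NashF
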