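import Mathlib
import Pool.Agent.NashF.Red

/-!
# One-sided linear forests

If at most `i` vertices of `K` have indegree at most `i`, for every `i`, then some linear forest
enters every vertex of `K`; the same for outdegrees and `X`.
-/

set_option autoImplicit false

namespace Pool.Agent.NashF

open Finset Pool.Agent.NashW

universe w

/-- reversing all edges -/
theorem Cov.flip {V : Type w} [Fintype V] {E : V → V → Prop} {X K : Finset V} (h : Cov E X K) :
    Cov (fun a b => E b a) K X := by
  obtain ⟨F, hF, h1, h2⟩ := h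
  obtain ⟨g, hg⟩ := hF.ht
  refine ⟨fun a b => F b a, ⟨fun a b h => hF.sub _ _ h, fun a b c h h' => hF.inj _ _ _ h h',
    fun a b c h h' => hF.fn _ _ _ h h', ⟨fun v => (∑ u, g u) - g v, ?_⟩⟩, h2, h1⟩
  intro a b hab
  have h3 := hg _ _ hab
  have h4 : g a ≤ ∑ u, g u := Finset.single_le_sum (f := g) (fun _ _ => Nat.zero_le _) (Finset.mem_univ a)
  show (∑ u, g u) - g a < (∑ u, g u) - g b
  omega

theorem flip_iff {V : Type w} [Fintype V] {E : V → V → Prop} {X K : Finset V} :
    Cov (fun a b => E b a) K X ↔ Cov E X K :=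
  ⟨fun h => h.flip, fun h => h.flip⟩

theorem od_flip {V : Type w} [Fintype V] (E : V → V → Prop) (v : V) :
    od (fun a b => E b a) v = ideg E v := rfl

theorem ideg_flip {V : Type w} [Fintype V] (E : V → V → Prop) (v : V) :
    ideg (fun a b => E b a) v = od E v := rfl

open Classical in
/-- one-sided lemma for tails -/
theorem cov_tails : ∀ (n : ℕ) (V : Type w) [Fintype V] (E : V → V → Prop) (X : Finset V),
    Fintype.card V = n → (∀ v, ¬ E v v) →
    (∀ i, (X.filter (fun v => od E v ≤ i)).card ≤ i) → Cov E X ∅ := by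
  intro n
  induction n with
  | zero =>
    intro V _ E X hcard hloop hX
    have hX0 : X = ∅ := by
      rw [← Finset.card_eq_zero]
      have := Finset.card_le_univ X
      omega
    refine ⟨fun _ _ => False, ⟨fun _ _ h => h.elim, fun _ _ _ h => h.elim, fun _ _ _ h => h.elim,
      ⟨fun _ => 0, fun _ _ h => h.elim⟩⟩, ?_, by simp⟩
    simp [hX0]
  | succ n ih =>
    intro V _ E X hcard hloop hX
    by_cases hXe : X = ∅
    · refine ⟨fun _ _ => False, ⟨fun _ _ h => h.elim, fun _ _ _ h => h.elim,
        fun _ _ _ h => h.elim, ⟨fun _ => 0, fun _ _ h => h.elim⟩⟩, ?_, by simp⟩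
      simp [hXe]
    obtain ⟨x, hxX, hmin⟩ := Finset.exists_min_image X (od E)
      (Finset.nonempty_iff_ne_empty.mpr hXe)
    have hpos : 1 ≤ od E x := by
      by_contra hcon
      have h0 := hX 0
      have : x ∈ X.filter (fun v => od E v ≤ 0) := by
        rw [Finset.mem_filter]; exact ⟨hxX, by omega⟩
      have := Finset.card_pos.mpr ⟨x, this⟩
      omega
    obtain ⟨y, hy⟩ : ∃ y, E x y := by
      unfold od at hpos
      obtain ⟨u, hu⟩ := Finset.card_pos.mp (lt_of_lt_of_le Nat.zero_lt_one hpos)
      exact ⟨u, (Finset.mem_filter.mp hu).2⟩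
    have hne : x ≠ y := by rintro rfl; exact hloop _ hy
    have hc' := card_ctr (V := V) y
    apply Cov.lift hne hy (X' := pre x y X) (K' := ∅)
    · intro a ha; rw [mem_pre]; exact ha
    · intro a ha; simp at ha
    · exact ih {v : V // v ≠ y} (Ctr E x y) (pre x y X) (by omega) (ctr_loop x y)
        (fun i => pre_posa hloop x y hne X hxX hmin hX i)

open Classical in
/-- one-sided lemma for heads -/
theorem cov_heads {V : Type w} [Fintype V] (E : V → V → Prop) (K : Finset V)
    (hloop : ∀ v, ¬ E v v) (hK : ∀ i, (K.filter (fun v => ideg E v ≤ i)).card ≤ i) :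
    Cov E ∅ K := by
  have h := cov_tails (Fintype.card V) V (fun a b => E b a) K rfl hloop
    (by intro i; exact hK i)
  exact flip_iff.mp (by exact h)

end Pool.Agent.NashF
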