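import Mathlib
import Pool.Agent.NashF.Side

/-!
# The weak statement implies the strict one

`WStmt`: if at most `i` vertices of `X` have outdegree at most `i` and at most `i` vertices of `K`
have indegree at most `i`, for every `i`, then some linear forest misses at most one of the
requirements (an edge leaving each vertex of `X`, an edge entering each vertex of `K`).
`FStmt`: with strict inequalities for `i ≥ 1` the linear forest can be chosen to miss nothing.
-/

set_option autoImplicit false

namespace Pool.Agent.NashF

open Finset Pool.Agent.NashW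

open Classical in
/-- weak degree condition -/
def Weak {V : Type} (deg : V → ℕ) (X : Finset V) : Prop :=
  ∀ i, (X.filter (fun v => deg v ≤ i)).card ≤ i

open Classical in
/-- strict degree condition -/
def Strict {V : Type} (deg : V → ℕ) (X : Finset V) : Prop :=
  ∀ i, (X.filter (fun v => deg v ≤ i)).card ≤ i - 1

/-- the weak statement -/
def WStmt : Prop := ∀ (V : Type) [Fintype V] (E : V → V → Prop) (X K : Finset V),
  (∀ v, ¬ E v v) → Weak (od E) X → Weak (ideg E) K →
  ∃ X' K' : Finset V, X' ⊆ X ∧ K' ⊆ K ∧ X.card + K.card ≤ X'.card + K'.card + 1 ∧ Cov E X' K'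

/-- the strict statement -/
def FStmt : Prop := ∀ (V : Type) [Fintype V] (E : V → V → Prop) (X K : Finset V),
  (∀ v, ¬ E v v) → Strict (od E) X → Strict (ideg E) K → Cov E X K

/-- the gadget: two new vertices joined in both directions -/
def Gad {V : Type} (E : V → V → Prop) : (V ⊕ Bool) → (V ⊕ Bool) → Prop
  | Sum.inl a, Sum.inl b => E a b
  | Sum.inr a, Sum.inr b => a ≠ b
  | _, _ => False

theorem gad_od {V : Type} [Fintype V] (E : V → V → Prop) (v : V) :
    od (Gad E) (Sum.inl v) = od E v := by
  classical
  unfold od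
  symm
  apply Finset.card_bij (fun w _ => (Sum.inl w : V ⊕ Bool))
  · intro a ha
    rw [Finset.mem_filter] at ha ⊢
    exact ⟨Finset.mem_univ _, ha.2⟩
  · intro a _ b _ h
    exact Sum.inl.inj h
  · intro b hb
    rw [Finset.mem_filter] at hb
    rcases b with b | b
    · exact ⟨b, by rw [Finset.mem_filter]; exact ⟨Finset.mem_univ _, hb.2⟩, rfl⟩
    · exact hb.2.elim

theorem gad_ideg {V : Type} [Fintype V] (E : V → V → Prop) (v : V) :
    ideg (Gad E) (Sum.inl v) = ideg E v := by
  classical
  unfold ideg
  symm
  apply Finset.card_bij (fun w _ => (Sum.inl w : V ⊕ Bool))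
  · intro a ha
    rw [Finset.mem_filter] at ha ⊢
    exact ⟨Finset.mem_univ _, ha.2⟩
  · intro a _ b _ h
    exact Sum.inl.inj h
  · intro b hb
    rw [Finset.mem_filter] at hb
    rcases b with b | b
    · exact ⟨b, by rw [Finset.mem_filter]; exact ⟨Finset.mem_univ _, hb.2⟩, rfl⟩
    · exact hb.2.elim

theorem gad_od_pos {V : Type} [Fintype V] (E : V → V → Prop) :
    1 ≤ od (Gad E) (Sum.inr true) := by
  classical
  unfold od
  apply Finset.card_pos.mpr
  refine ⟨Sum.inr false, ?_⟩
  rw [Finset.mem_filter]
  exact ⟨Finset.mem_univ _, by show true ≠ false; decide⟩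

theorem gad_ideg_pos {V : Type} [Fintype V] (E : V → V → Prop) :
    1 ≤ ideg (Gad E) (Sum.inr true) := by
  classical
  unfold ideg
  apply Finset.card_pos.mpr
  refine ⟨Sum.inr false, ?_⟩
  rw [Finset.mem_filter]
  exact ⟨Finset.mem_univ _, by show false ≠ true; decide⟩

/-- the set `X` together with the new vertex -/
noncomputable def ext {V : Type} (X : Finset V) : Finset (V ⊕ Bool) := by
  classical
  exact insert (Sum.inr true) (X.image Sum.inl)

theorem mem_ext_inl {V : Type} (X : Finset V) (v : V) : Sum.inl v ∈ ext X ↔ v ∈ X := by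
  classical
  unfold ext
  simp

theorem mem_ext_inr {V : Type} (X : Finset V) : Sum.inr true ∈ ext X := by
  classical
  unfold ext
  simp

open Classical in
theorem ext_weak {V : Type} (X : Finset V) (d : V → ℕ) (d' : V ⊕ Bool → ℕ)
    (h1 : ∀ v, d' (Sum.inl v) = d v) (h2 : 1 ≤ d' (Sum.inr true)) (h : Strict d X) :
    Weak d' (ext X) := by
  intro i
  have hsub : (ext X).filter (fun v => d' v ≤ i) ⊆
      (if 1 ≤ i then {Sum.inr true} else ∅) ∪ (X.filter (fun v => d v ≤ i)).image Sum.inl := by
    intro v hv
    rw [Finset.mem_filter] at hv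
    rw [Finset.mem_union]
    rcases v with v | b
    · right
      rw [Finset.mem_image]
      refine ⟨v, ?_, rfl⟩
      rw [Finset.mem_filter]
      exact ⟨(mem_ext_inl X v).mp hv.1, by rw [← h1]; exact hv.2⟩
    · left
      have hb : b = true := by
        have := hv.1
        unfold ext at this
        simpa using this
      subst hb
      rw [if_pos (le_trans h2 hv.2)]
      simp
  have h3 := Finset.card_le_card hsub
  have h4 := Finset.card_union_le (if 1 ≤ i then ({Sum.inr true} : Finset (V ⊕ Bool)) else ∅)
    ((X.filter (fun v => d v ≤ i)).image Sum.inl)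
  have h5 : ((X.filter (fun v => d v ≤ i)).image (Sum.inl : V → V ⊕ Bool)).card ≤ i - 1 :=
    le_trans Finset.card_image_le (h i)
  by_cases hi : 1 ≤ i
  · rw [if_pos hi] at h3 h4
    rw [Finset.card_singleton] at h4
    omega
  · rw [if_neg hi] at h3 h4
    rw [Finset.card_empty] at h4
    omega

/-- **The gadget.** -/
theorem fstmt_of_wstmt (hW : WStmt) : FStmt := by
  classical
  intro V _ E X K hloop hX hK
  obtain ⟨X', K', hX', hK', hcard, F, hF, hT, hH⟩ := hW (V ⊕ Bool) (Gad E) (ext X) (ext K)
    (by
      rintro (v | b)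
      · exact hloop v
      · intro h; exact h rfl)
    (ext_weak X (od E) _ (gad_od E) (gad_od_pos E) hX)
    (ext_weak K (ideg E) _ (gad_ideg E) (gad_ideg_pos E) hK)
  obtain ⟨g, hg⟩ := hF.ht
  -- the new vertex is missed
  have hz : Sum.inr true ∉ X' ∨ Sum.inr true ∉ K' := by
    by_contra hcon
    push Not at hcon
    obtain ⟨b, hb⟩ := hT _ hcon.1
    obtain ⟨a, ha⟩ := hH _ hcon.2
    have hb' : b = Sum.inr false := by
      have := hF.sub _ _ hb
      rcases b with b | b
      · exact this.elim
      · cases b
        · rfl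
        · exact absurd rfl this
    have ha' : a = Sum.inr false := by
      have := hF.sub _ _ ha
      rcases a with a | a
      · exact this.elim
      · cases a
        · rfl
        · exact absurd rfl this
    rw [hb'] at hb
    rw [ha'] at ha
    exact lt_irrefl _ (lt_trans (hg _ _ hb) (hg _ _ ha))
  have hcX : X'.card ≤ (ext X).card := Finset.card_le_card hX'
  have hcK : K'.card ≤ (ext K).card := Finset.card_le_card hK'
  have hlt1 : ∀ x, x ∈ ext X → x ∉ X' → X'.card + 1 ≤ (ext X).card := by
    intro x h1 h2
    have : (insert x X').card ≤ (ext X).card := Finset.card_le_card (Finset.insert_subset h1 hX')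
    rw [Finset.card_insert_of_notMem h2] at this
    exact this
  have hlt2 : ∀ x, x ∈ ext K → x ∉ K' → K'.card + 1 ≤ (ext K).card := by
    intro x h1 h2
    have : (insert x K').card ≤ (ext K).card := Finset.card_le_card (Finset.insert_subset h1 hK')
    rw [Finset.card_insert_of_notMem h2] at this
    exact this
  have hrest : (∀ x ∈ X, Sum.inl x ∈ X') ∧ (∀ k ∈ K, Sum.inl k ∈ K') := by
    constructor
    · intro x hx
      by_contra hcon
      have h1 : Sum.inl x ∈ ext X := (mem_ext_inl X x).mpr hx
      rcases hz with hz | hz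
      · have h2 : (insert (Sum.inl x) (insert (Sum.inr true) X')).card ≤ (ext X).card :=
          Finset.card_le_card (Finset.insert_subset h1 (Finset.insert_subset (mem_ext_inr X) hX'))
        rw [Finset.card_insert_of_notMem (by simp [hcon]), Finset.card_insert_of_notMem hz] at h2
        omega
      · have h2 := hlt1 _ h1 hcon
        have h3 := hlt2 _ (mem_ext_inr K) hz
        omega
    · intro x hx
      by_contra hcon
      have h1 : Sum.inl x ∈ ext K := (mem_ext_inl K x).mpr hx
      rcases hz with hz | hz
      · have h2 := hlt2 _ h1 hcon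
        have h3 := hlt1 _ (mem_ext_inr X) hz
        omega
      · have h2 : (insert (Sum.inl x) (insert (Sum.inr true) K')).card ≤ (ext K).card :=
          Finset.card_le_card (Finset.insert_subset h1 (Finset.insert_subset (mem_ext_inr K) hK'))
        rw [Finset.card_insert_of_notMem (by simp [hcon]), Finset.card_insert_of_notMem hz] at h2
        omega
  refine ⟨fun a b => F (Sum.inl a) (Sum.inl b), ⟨?_, ?_, ?_, ⟨fun v => g (Sum.inl v), ?_⟩⟩, ?_, ?_⟩
  · intro a b hab
    exact hF.sub _ _ hab
  · intro a b c hab hac
    exact Sum.inl.inj (hF.fn _ _ _ hab hac)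
  · intro a b c hac hbc
    exact Sum.inl.inj (hF.inj _ _ _ hac hbc)
  · intro a b hab
    exact hg _ _ hab
  · intro x hx
    obtain ⟨b, hb⟩ := hT _ (hrest.1 x hx)
    rcases b with b | b
    · exact ⟨b, hb⟩
    · exact (hF.sub _ _ hb).elim
  · intro x hx
    obtain ⟨b, hb⟩ := hH _ (hrest.2 x hx)
    rcases b with b | b
    · exact ⟨b, hb⟩
    · exact (hF.sub _ _ hb).elim

end Pool.Agent.NashF
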