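import Mathlib
import Pool.Agent.NashF.Gadget
import Pool.Agent.NashW.Fin

/-!
# From linear forests to Hamilton cycles, degree form

`ham_of_cov`: the reduction theorem with the degree conditions written out. `ham_fin`: the same
for digraphs given as finite sets of pairs on `Fin n`.
-/

set_option autoImplicit false

namespace Pool.Agent.NashF

open Finset Pool.Agent.NashW

open Classical in
/-- the vertices of small indegree -/
noncomputable def low {V : Type} [Fintype V] (E : V → V → Prop) (δ : ℕ) : Finset V :=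
  univ.filter (fun v => ideg E v + 1 + δ < Fintype.card V)

theorem mem_low {V : Type} [Fintype V] (E : V → V → Prop) (δ : ℕ) (v : V) :
    v ∈ low E δ ↔ ideg E v + 1 + δ < Fintype.card V := by
  classical
  unfold low
  rw [Finset.mem_filter]
  exact ⟨fun h => h.2, fun h => ⟨Finset.mem_univ _, h⟩⟩

theorem ham_of_cov {V : Type} [Fintype V] (E : V → V → Prop) (X : Finset V) (δ : ℕ)
    (hloop : ∀ v, ¬ E v v) (hout : ∀ v, v ∉ X → δ + X.card ≤ od E v)
    (h2 : Fintype.card V ≤ 2 * δ + X.card) (hn : X.card + 2 ≤ Fintype.card V)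
    (hcov : Cov E X (low E δ)) : HC E := by
  obtain ⟨F, hF, hT, hH⟩ := hcov
  exact red δ X.card V E F X rfl hloop hF hT (fun v hv => hH v ((mem_low E δ v).mpr hv))
    hout h2 hn

open Classical in
theorem low_strict {V : Type} [Fintype V] (E : V → V → Prop) (δ : ℕ)
    (hin : ∀ i, i + 1 + δ < Fintype.card V →
      (univ.filter (fun v => ideg E v ≤ i)).card ≤ i - 1) : Strict (ideg E) (low E δ) := by
  intro i
  by_cases hi : i + 1 + δ < Fintype.card V
  · refine le_trans (Finset.card_le_card ?_) (hin i hi)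
    intro v hv
    rw [Finset.mem_filter] at hv ⊢
    exact ⟨Finset.mem_univ _, hv.2⟩
  · by_cases h0 : 1 + δ < Fintype.card V
    · obtain ⟨j, hj⟩ : ∃ j, j + 1 + δ + 1 = Fintype.card V :=
        ⟨Fintype.card V - δ - 2, by omega⟩
      refine le_trans (Finset.card_le_card ?_) (le_trans (hin j (by omega)) (by omega))
      intro v hv
      rw [Finset.mem_filter, mem_low] at hv
      rw [Finset.mem_filter]
      exact ⟨Finset.mem_univ _, by omega⟩
    · have : (low E δ).filter (fun v => ideg E v ≤ i) = ∅ := by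
        rw [Finset.eq_empty_iff_forall_notMem]
        intro v hv
        rw [Finset.mem_filter, mem_low] at hv
        omega
      rw [this]
      simp

open Classical in
theorem ham_of_F (hF : FStmt) {V : Type} [Fintype V] (E : V → V → Prop) (X : Finset V) (δ : ℕ)
    (hloop : ∀ v, ¬ E v v) (hX : Strict (od E) X)
    (hout : ∀ v, v ∉ X → δ + X.card ≤ od E v)
    (h2 : Fintype.card V ≤ 2 * δ + X.card) (hn : X.card + 2 ≤ Fintype.card V)
    (hin : ∀ i, i + 1 + δ < Fintype.card V →
      (univ.filter (fun v => ideg E v ≤ i)).card ≤ i - 1) : HC E :=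
  ham_of_cov E X δ hloop hout h2 hn (hF V E X (low E δ) hloop hX (low_strict E δ hin))

theorem ham_fin (hF : FStmt) (n : ℕ) (E : Finset (Fin n × Fin n))
    (hloop : ∀ v : Fin n, (v, v) ∉ E) (X : Finset (Fin n)) (δ : ℕ)
    (hX : ∀ i : ℕ, (X.filter (fun v => (E.filter (fun e => e.1 = v)).card ≤ i)).card ≤ i - 1)
    (hout : ∀ v, v ∉ X → δ + X.card ≤ (E.filter (fun e => e.1 = v)).card)
    (h2 : n ≤ 2 * δ + X.card) (hn : X.card + 2 ≤ n)
    (hin : ∀ i : ℕ, i + 1 + δ < n →
      (Finset.univ.filter (fun v : Fin n => (E.filter (fun e => e.2 = v)).card ≤ i)).card ≤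
        i - 1) :
    ∃ σ : Equiv.Perm (Fin n), ∀ i : Fin n, (σ i, σ (finRotate n i)) ∈ E := by
  classical
  apply hc_perm
  apply ham_of_F hF (fun a b => (a, b) ∈ E) X δ hloop
  · intro i
    have := hX i
    simp only [od_eq]
    convert this using 2
  · intro v hv
    rw [od_eq]
    exact hout v hv
  · rw [Fintype.card_fin]; exact h2
  · rw [Fintype.card_fin]; exact hn
  · intro i hi
    rw [Fintype.card_fin] at hi
    have := hin i hi
    simp only [ideg_eq]
    convert this using 2

end Pool.Agent.NashF
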