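import Mathlib
import Pool.Agent.NashF.Final

/-!
# Linear forests: a Posa-type condition on one side, a flat condition on the other side

`cov_flat`: if fewer than `i` vertices of `X` have outdegree at most `i` (`i ≥ 1`, and none has
outdegree `0`) and every vertex of `K` has indegree at least `|K|`, then some linear forest leaves
every vertex of `X` and enters every vertex of `K`.

Induction: contract an edge leaving a vertex `x` of `X` of smallest outdegree, or a path
`u → x → w`.
-/

set_option autoImplicit false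

namespace Pool.Agent.NashF

open Finset Pool.Agent.NashW

section double

variable {V : Type} [Fintype V] {E : V → V → Prop}

open Classical in
/-- the vertices of the contraction lying in `K` -/
noncomputable def rest (w : V) (K : Finset V) : Finset {v : V // v ≠ w} :=
  univ.filter (fun a => a.1 ∈ K)

theorem mem_rest (w : V) (K : Finset V) (a : {v : V // v ≠ w}) : a ∈ rest w K ↔ a.1 ∈ K := by
  classical
  unfold rest
  rw [Finset.mem_filter]
  exact ⟨fun h => h.2, fun h => ⟨Finset.mem_univ _, h⟩⟩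

theorem card_rest [DecidableEq V] (w : V) (K : Finset V) : (rest w K).card = (K.erase w).card := by
  apply Finset.card_bij (fun a _ => a.1)
  · intro a ha
    rw [mem_rest] at ha
    rw [Finset.mem_erase]
    exact ⟨a.2, ha⟩
  · intro a _ b _ h
    exact Subtype.ext h
  · intro v hv
    rw [Finset.mem_erase] at hv
    exact ⟨⟨v, hv.1⟩, by rw [mem_rest]; exact hv.2, rfl⟩

open Classical in
/-- a contraction of an edge leaving a vertex of `X` of smallest outdegree keeps the strict
condition -/
theorem pre_strict (hloop : ∀ v, ¬ E v v) (x y : V) (hxy : x ≠ y) (X : Finset V) (hxX : x ∈ X)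
    (hmin : ∀ z ∈ X, od E x ≤ od E z) (hX : Strict (od E) X) :
    Strict (od (Ctr E x y)) (pre x y X) := by
  intro i
  have h1 : (((pre x y X).filter (fun v => od (Ctr E x y) v ≤ i)).image (role x y)) ⊆
      (X.filter (fun v => od E v ≤ i + 1)).erase x := by
    intro v hv
    rw [Finset.mem_image] at hv
    obtain ⟨a, ha, rfl⟩ := hv
    rw [Finset.mem_filter, mem_pre] at ha
    rw [Finset.mem_erase, Finset.mem_filter]
    refine ⟨role_ne x y hxy a, ha.1, ?_⟩
    have := role_od hloop x y hxy a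
    omega
  have h2 := Finset.card_le_card h1
  rw [Finset.card_image_of_injective _ (role_inj x y)] at h2
  have h5 := hX (i + 1)
  by_cases h3 : x ∈ X.filter (fun v => od E v ≤ i + 1)
  · rw [Finset.card_erase_of_mem h3] at h2
    omega
  · have h4 : X.filter (fun v => od E v ≤ i + 1) = ∅ := by
      rw [Finset.eq_empty_iff_forall_notMem]
      intro v hv
      rw [Finset.mem_filter] at hv
      apply h3
      rw [Finset.mem_filter]
      exact ⟨hxX, le_trans (hmin v hv.1) hv.2⟩
    rw [h4, Finset.erase_empty, Finset.card_empty] at h2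
    omega

open Classical in
/-- outdegrees after contraction of a path `u → x → w` -/
theorem double_od (hloop : ∀ v, ¬ E v v) (x w : V) (hxw : x ≠ w) (u : {v : V // v ≠ w})
    (hux : u.1 ≠ x) (a : {v : {v : V // v ≠ w} // v ≠ ⟨x, hxw⟩}) :
    od E (role x w (role u ⟨x, hxw⟩ a)) ≤
      od (Ctr (Ctr E x w) u ⟨x, hxw⟩) a + 2 ∧
    (¬ E (role x w (role u ⟨x, hxw⟩ a)) x → E w x →
      od E (role x w (role u ⟨x, hxw⟩ a)) ≤ od (Ctr (Ctr E x w) u ⟨x, hxw⟩) a + 1) := by
  classical
  have hu : u ≠ ⟨x, hxw⟩ := fun h => hux (congrArg Subtype.val h)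
  have h1 := role_od hloop x w hxw (role u ⟨x, hxw⟩ a)
  have h2 := role_od (ctr_loop (E := E) x w) u ⟨x, hxw⟩ hu a
  refine ⟨by omega, ?_⟩
  intro hn hwx
  -- `a` is not the end of the contracted path
  have hau : a.1 ≠ u := by
    intro h
    apply hn
    have h3 : role u ⟨x, hxw⟩ a = ⟨x, hxw⟩ := role_self u ⟨x, hxw⟩ a h
    rw [h3, role_self x w ⟨x, hxw⟩ rfl]
    exact hwx
  have h3 : role u ⟨x, hxw⟩ a = a.1 := role_other u ⟨x, hxw⟩ a hau
  have hax : a.1.1 ≠ x := fun h => a.2 (Subtype.ext h)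
  have h4 : role x w a.1 = a.1.1 := role_other x w a.1 hax
  rw [h3, h4] at hn h1 ⊢
  have h5 := ctr_od_other (ctr_loop (E := E) x w) u ⟨x, hxw⟩ a hau
  rw [if_neg] at h5
  · omega
  · rintro ⟨_, ⟨h6, _⟩ | ⟨_, h6⟩⟩
    · exact hax h6
    · exact hn h6

end double

open Classical in
/-- a Posa-type condition on the outdegrees in `X`, a flat condition on the indegrees in `K` -/
theorem cov_flat : ∀ (n : ℕ) (V : Type) [Fintype V] (E : V → V → Prop) (X K : Finset V),
    Fintype.card V = n → (∀ v, ¬ E v v) → Strict (od E) X → (∀ k ∈ K, K.card ≤ ideg E k) →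
    Cov E X K := by
  intro n
  induction n using Nat.strong_induction_on with
  | _ n ih =>
  intro V _ E X K hcard hloop hX hK
  by_cases hXe : X = ∅
  · subst hXe
    apply cov_heads E K hloop
    intro i
    by_cases hne : (K.filter (fun v => ideg E v ≤ i)) = ∅
    · rw [hne]; simp
    · obtain ⟨k, hk⟩ := Finset.nonempty_iff_ne_empty.mpr hne
      rw [Finset.mem_filter] at hk
      have h1 := hK k hk.1
      have h2 := Finset.card_filter_le K (fun v => ideg E v ≤ i)
      omega
  obtain ⟨x, hxX, hmin⟩ := Finset.exists_min_image X (od E)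
    (Finset.nonempty_iff_ne_empty.mpr hXe)
  have hx2 : 2 ≤ od E x := by
    by_contra hcon
    have h0 := hX 1
    have : x ∈ X.filter (fun v => od E v ≤ 1) := by
      rw [Finset.mem_filter]; exact ⟨hxX, by omega⟩
    have := Finset.card_pos.mpr ⟨x, this⟩
    omega
  by_cases hc1 : ∃ w, E x w ∧ w ∈ K
  · obtain ⟨w, hxw, hwK⟩ := hc1
    have hne : x ≠ w := by rintro rfl; exact hloop _ hxw
    have hc' := card_ctr (V := V) w
    apply Cov.lift hne hxw (X' := pre x w X) (K' := rest w K)
    · intro a ha; rw [mem_pre]; exact ha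
    · intro a ha; rw [mem_rest]; exact ha
    · apply ih (Fintype.card {v : V // v ≠ w}) (by omega) _ _ _ _ rfl (ctr_loop x w)
        (pre_strict hloop x w hne X hxX hmin hX)
      intro a ha
      rw [mem_rest] at ha
      rw [card_rest, Finset.card_erase_of_mem hwK]
      have h1 := hK a.1 ha
      have h2 := ctr_ideg_le hloop x w a
      omega
  push Not at hc1
  by_cases hc2 : ∃ w, E x w ∧ (x ∈ K → ¬ E w x)
  · obtain ⟨w, hxw, hwx⟩ := hc2
    have hne : x ≠ w := by rintro rfl; exact hloop _ hxw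
    have hc' := card_ctr (V := V) w
    apply Cov.lift hne hxw (X' := pre x w X) (K' := rest w K)
    · intro a ha; rw [mem_pre]; exact ha
    · intro a ha; rw [mem_rest]; exact ha
    · apply ih (Fintype.card {v : V // v ≠ w}) (by omega) _ _ _ _ rfl (ctr_loop x w)
        (pre_strict hloop x w hne X hxX hmin hX)
      intro a ha
      rw [mem_rest] at ha
      have h0 : (rest w K).card ≤ K.card := by
        rw [card_rest]; exact Finset.card_le_card (Finset.erase_subset _ _)
      have h1 := hK a.1 ha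
      by_cases hax : a.1 = x
      · have h2 := ctr_ideg_self hloop x w hne
        rw [if_neg (hwx (hax ▸ ha))] at h2
        have h3 : a = ⟨x, hne⟩ := Subtype.ext hax
        rw [h3]
        rw [hax] at h1
        omega
      · have h2 := ctr_ideg hloop x w a hax
        rw [if_neg (fun h => hc1 _ h ha)] at h2
        omega
  push Not at hc2
  -- an in-neighbour of `x` of smallest outdegree
  obtain ⟨w₀, hw₀⟩ : ∃ w, E x w := by
    unfold od at hx2
    obtain ⟨w, hw⟩ := Finset.card_pos.mp (lt_of_lt_of_le Nat.zero_lt_two hx2)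
    exact ⟨w, (Finset.mem_filter.mp hw).2⟩
  have hxK : x ∈ K := (hc2 w₀ hw₀).1
  obtain ⟨u, hux, humin⟩ : ∃ u, E u x ∧ ∀ v ∈ X, E v x → u ∈ X ∧ od E u ≤ od E v := by
    by_cases hne : (X.filter (fun v => E v x)).Nonempty
    · obtain ⟨u, hu, hum⟩ := Finset.exists_min_image (X.filter (fun v => E v x)) (od E) hne
      rw [Finset.mem_filter] at hu
      refine ⟨u, hu.2, ?_⟩
      intro v hv hvx
      exact ⟨hu.1, hum v (by rw [Finset.mem_filter]; exact ⟨hv, hvx⟩)⟩
    · refine ⟨w₀, (hc2 w₀ hw₀).2, ?_⟩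
      intro v hv hvx
      exact absurd ⟨v, by rw [Finset.mem_filter]; exact ⟨hv, hvx⟩⟩ hne
  obtain ⟨w, hxw, hwu⟩ : ∃ w, E x w ∧ w ≠ u := by
    unfold od at hx2
    obtain ⟨w, hw, hwu⟩ := Finset.exists_mem_ne (lt_of_lt_of_le Nat.one_lt_two hx2) u
    exact ⟨w, (Finset.mem_filter.mp hw).2, hwu⟩
  have hwx : E w x := (hc2 w hxw).2
  have hwK : w ∉ K := hc1 w hxw
  have hne : x ≠ w := by rintro rfl; exact hloop _ hxw
  have hux' : u ≠ x := by rintro rfl; exact hloop _ hux
  have hc' := card_ctr (V := V) w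
  apply Cov.lift hne hxw (X' := pre x w X) (K' := rest w K)
  · intro a ha; rw [mem_pre]; exact ha
  · intro a ha; rw [mem_rest]; exact ha
  have hE1 : Ctr E x w ⟨u, hwu.symm⟩ ⟨x, hne⟩ := by
    refine ⟨fun h => hux' (congrArg Subtype.val h), Or.inr ⟨hux', hux⟩⟩
  have hne1 : (⟨u, hwu.symm⟩ : {v : V // v ≠ w}) ≠ ⟨x, hne⟩ :=
    fun h => hux' (congrArg Subtype.val h)
  have hc'' := card_ctr (V := {v : V // v ≠ w}) ⟨x, hne⟩
  apply Cov.lift hne1 hE1 (X' := pre ⟨u, hwu.symm⟩ ⟨x, hne⟩ (pre x w X))
    (K' := rest ⟨x, hne⟩ (rest w K))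
  · intro a ha; rw [mem_pre]; exact ha
  · intro a ha; rw [mem_rest]; exact ha
  apply ih (Fintype.card {v : {v : V // v ≠ w} // v ≠ ⟨x, hne⟩}) (by omega) _ _ _ _ rfl
    (ctr_loop _ _)
  · -- outdegrees
    intro i
    have hinj : Function.Injective
        (fun a : {v : {v : V // v ≠ w} // v ≠ ⟨x, hne⟩} =>
          role x w (role ⟨u, hwu.symm⟩ ⟨x, hne⟩ a)) :=
      fun a b h => role_inj _ _ (role_inj _ _ h)
    have hnx : ∀ a : {v : {v : V // v ≠ w} // v ≠ ⟨x, hne⟩},
        role x w (role ⟨u, hwu.symm⟩ ⟨x, hne⟩ a) ≠ x := fun a => role_ne x w hne _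
    have hnu : ∀ a : {v : {v : V // v ≠ w} // v ≠ ⟨x, hne⟩},
        role x w (role ⟨u, hwu.symm⟩ ⟨x, hne⟩ a) ≠ u := by
      intro a h
      have h1 : role x w (role ⟨u, hwu.symm⟩ ⟨x, hne⟩ a) = role x w ⟨u, hwu.symm⟩ := by
        rw [h, role_other x w ⟨u, hwu.symm⟩ hux']
      exact role_ne _ _ hne1 a (role_inj x w h1)
    have hd := fun a => double_od hloop x w hne ⟨u, hwu.symm⟩ hux' a
    set S := (pre ⟨u, hwu.symm⟩ ⟨x, hne⟩ (pre x w X)).filter
      (fun v => od (Ctr (Ctr E x w) ⟨u, hwu.symm⟩ ⟨x, hne⟩) v ≤ i) with hS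
    have hScard : S.card = (S.image (fun a : {v : {v : V // v ≠ w} // v ≠ ⟨x, hne⟩} =>
          role x w (role ⟨u, hwu.symm⟩ ⟨x, hne⟩ a))).card :=
      (Finset.card_image_of_injective _ hinj).symm
    rw [hScard]
    have hmem : ∀ a ∈ S, role x w (role ⟨u, hwu.symm⟩ ⟨x, hne⟩ a) ∈ X ∧
        od (Ctr (Ctr E x w) ⟨u, hwu.symm⟩ ⟨x, hne⟩) a ≤ i := by
      intro a ha
      rw [hS, Finset.mem_filter, mem_pre, mem_pre] at ha
      exact ha
    by_cases hB : ∃ a ∈ S, i + 2 ≤ od E (role x w (role ⟨u, hwu.symm⟩ ⟨x, hne⟩ a))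
    · obtain ⟨a, haS, ha2⟩ := hB
      have h1 := hmem a haS
      have h2 := hd a
      have hvx : E (role x w (role ⟨u, hwu.symm⟩ ⟨x, hne⟩ a)) x := by
        by_contra hcon
        have := h2.2 hcon hwx
        omega
      have hu2 := humin _ h1.1 hvx
      have hsub : (S.image (fun a : {v : {v : V // v ≠ w} // v ≠ ⟨x, hne⟩} =>
          role x w (role ⟨u, hwu.symm⟩ ⟨x, hne⟩ a))) ⊆
          ((X.filter (fun v => od E v ≤ i + 2)).erase x).erase u := by
        intro v hv
        rw [Finset.mem_image] at hv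
        obtain ⟨b, hb, rfl⟩ := hv
        have h3 := hmem b hb
        have h4 := hd b
        rw [Finset.mem_erase, Finset.mem_erase, Finset.mem_filter]
        exact ⟨hnu b, hnx b, h3.1, by omega⟩
      have h5 := Finset.card_le_card hsub
      have hle : od E (role x w (role ⟨u, hwu.symm⟩ ⟨x, hne⟩ a)) ≤ i + 2 := by omega
      rw [Finset.card_erase_of_mem, Finset.card_erase_of_mem] at h5
      · have := hX (i + 2)
        omega
      · rw [Finset.mem_filter]
        exact ⟨hxX, le_trans (hmin _ h1.1) hle⟩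
      · rw [Finset.mem_erase, Finset.mem_filter]
        exact ⟨hux', hu2.1, le_trans hu2.2 hle⟩
    · push Not at hB
      have hsub : (S.image (fun a : {v : {v : V // v ≠ w} // v ≠ ⟨x, hne⟩} =>
          role x w (role ⟨u, hwu.symm⟩ ⟨x, hne⟩ a))) ⊆
          (X.filter (fun v => od E v ≤ i + 1)).erase x := by
        intro v hv
        rw [Finset.mem_image] at hv
        obtain ⟨b, hb, rfl⟩ := hv
        have h3 := hmem b hb
        have h4 := hB b hb
        rw [Finset.mem_erase, Finset.mem_filter]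
        exact ⟨hnx b, h3.1, by omega⟩
      have h2 := Finset.card_le_card hsub
      have h5 := hX (i + 1)
      by_cases h3 : x ∈ X.filter (fun v => od E v ≤ i + 1)
      · rw [Finset.card_erase_of_mem h3] at h2
        omega
      · have h4 : X.filter (fun v => od E v ≤ i + 1) = ∅ := by
          rw [Finset.eq_empty_iff_forall_notMem]
          intro v hv
          rw [Finset.mem_filter] at hv
          apply h3
          rw [Finset.mem_filter]
          exact ⟨hxX, le_trans (hmin v hv.1) hv.2⟩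
        rw [h4, Finset.erase_empty, Finset.card_empty] at h2
        omega
  · -- indegrees
    intro a ha
    rw [mem_rest, mem_rest] at ha
    have hxr : (⟨x, hne⟩ : {v : V // v ≠ w}) ∈ rest w K := by rw [mem_rest]; exact hxK
    rw [card_rest, Finset.card_erase_of_mem hxr, card_rest,
      Finset.erase_eq_of_notMem hwK]
    have hax : a.1.1 ≠ x := fun h => a.2 (Subtype.ext h)
    have h1 := hK _ ha
    have h2 := ctr_ideg hloop x w a.1 hax
    rw [if_neg (fun h => hc1 _ h ha)] at h2
    have h3 := ctr_ideg_le (ctr_loop (E := E) x w) ⟨u, hwu.symm⟩ ⟨x, hne⟩ a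
    omega

end Pool.Agent.NashF
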