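import Mathlib
import Pool.Agent.NashF.Flat

/-!
# Linear forests: strict rows, weak columns

`cov_fp2`: the outdegrees in `X` satisfy the strict condition, the indegrees in `K` the weak
condition, and every vertex of `X` and `K` has indegree at least `|K|`. Then some linear forest
leaves every vertex of `X` and enters every vertex of `K`.

Induction: contract an edge entering a vertex of `K` of smallest indegree.
-/

set_option autoImplicit false

namespace Pool.Agent.NashF

open Finset Pool.Agent.NashW

section

variable {V : Type} [Fintype V] {E : V → V → Prop}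

open Classical in
/-- columns after contraction of an edge entering the vertex of `K` of smallest indegree -/
theorem rest_weak (hloop : ∀ v, ¬ E v v) (u k : V) (K : Finset V) (hkK : k ∈ K)
    (hmin : ∀ z ∈ K, ideg E k ≤ ideg E z) (hK : Weak (ideg E) K) :
    Weak (ideg (Ctr E u k)) (rest k K) := by
  intro i
  have h1 : (((rest k K).filter (fun v => ideg (Ctr E u k) v ≤ i)).image Subtype.val) ⊆
      (K.filter (fun v => ideg E v ≤ i + 1)).erase k := by
    intro v hv
    rw [Finset.mem_image] at hv
    obtain ⟨a, ha, rfl⟩ := hv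
    rw [Finset.mem_filter, mem_rest] at ha
    rw [Finset.mem_erase, Finset.mem_filter]
    refine ⟨a.2, ha.1, ?_⟩
    have := ctr_ideg_le hloop u k a
    omega
  have h2 := Finset.card_le_card h1
  rw [Finset.card_image_of_injective _ Subtype.val_injective] at h2
  have h5 := hK (i + 1)
  by_cases h3 : k ∈ K.filter (fun v => ideg E v ≤ i + 1)
  · rw [Finset.card_erase_of_mem h3] at h2
    omega
  · have h4 : K.filter (fun v => ideg E v ≤ i + 1) = ∅ := by
      rw [Finset.eq_empty_iff_forall_notMem]
      intro v hv
      rw [Finset.mem_filter] at hv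
      apply h3
      rw [Finset.mem_filter]
      exact ⟨hkK, le_trans (hmin v hv.1) hv.2⟩
    rw [h4, Finset.erase_empty, Finset.card_empty] at h2
    omega

open Classical in
/-- rows after contraction of an edge `u → k`, where `k ∉ X` and `u` is an in-neighbour of `k` of
smallest outdegree -/
theorem pre_strict_low (hloop : ∀ v, ¬ E v v) (u k : V) (hne : u ≠ k) (X : Finset V) (hkX : k ∉ X)
    (humin : ∀ v ∈ X, E v k → u ∈ X ∧ od E u ≤ od E v) (hX : Strict (od E) X) :
    Strict (od (Ctr E u k)) (pre u k X) := by
  intro i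
  have hu : ∀ a ∈ pre u k X, a.1 ≠ u ∧ a.1 ∈ X := by
    intro a ha
    rw [mem_pre] at ha
    by_cases h : a.1 = u
    · rw [role_self u k a h] at ha
      exact absurd ha hkX
    · rw [role_other u k a h] at ha
      exact ⟨h, ha⟩
  have hc : ((pre u k X).filter (fun v => od (Ctr E u k) v ≤ i)).card =
      (((pre u k X).filter (fun v => od (Ctr E u k) v ≤ i)).image Subtype.val).card :=
    (Finset.card_image_of_injective _ Subtype.val_injective).symm
  rw [hc]
  by_cases hB : ∃ a ∈ (pre u k X).filter (fun v => od (Ctr E u k) v ≤ i), i + 1 ≤ od E a.1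
  · obtain ⟨a, haS, ha2⟩ := hB
    rw [Finset.mem_filter] at haS
    have h1 := hu a haS.1
    have h2 := ctr_od_other hloop u k a h1.1
    have hE : E a.1 k := by
      by_contra hcon
      rw [if_neg hcon] at h2
      omega
    rw [if_pos hE] at h2
    have h3 := humin _ h1.2 hE
    have hsub : ((pre u k X).filter (fun v => od (Ctr E u k) v ≤ i)).image Subtype.val ⊆
        (X.filter (fun v => od E v ≤ i + 1)).erase u := by
      intro v hv
      rw [Finset.mem_image] at hv
      obtain ⟨b, hb, rfl⟩ := hv
      rw [Finset.mem_filter] at hb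
      have h4 := hu b hb.1
      have h5 := ctr_od_other hloop u k b h4.1
      rw [Finset.mem_erase, Finset.mem_filter]
      refine ⟨h4.1, h4.2, ?_⟩
      split_ifs at h5 <;> omega
    have h5 := Finset.card_le_card hsub
    rw [Finset.card_erase_of_mem] at h5
    · have := hX (i + 1)
      omega
    · rw [Finset.mem_filter]
      exact ⟨h3.1, by omega⟩
  · push Not at hB
    have hsub : ((pre u k X).filter (fun v => od (Ctr E u k) v ≤ i)).image Subtype.val ⊆
        X.filter (fun v => od E v ≤ i) := by
      intro v hv
      rw [Finset.mem_image] at hv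
      obtain ⟨b, hb, rfl⟩ := hv
      have h6 := hB b hb
      rw [Finset.mem_filter] at hb
      have h4 := hu b hb.1
      rw [Finset.mem_filter]
      exact ⟨h4.2, by omega⟩
    exact le_trans (Finset.card_le_card hsub) (hX i)

end

open Classical in
/-- strict condition on the outdegrees in `X`, weak condition on the indegrees in `K`, and a flat
condition on the indegrees of the vertices in both sets -/
theorem cov_fp2 : ∀ (n : ℕ) (V : Type) [Fintype V] (E : V → V → Prop) (X K : Finset V),
    Fintype.card V = n → (∀ v, ¬ E v v) → Strict (od E) X → Weak (ideg E) K →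
    (∀ v ∈ X, v ∈ K → K.card ≤ ideg E v) → Cov E X K := by
  intro n
  induction n using Nat.strong_induction_on with
  | _ n ih =>
  intro V _ E X K hcard hloop hX hK hXK
  by_cases hKe : K = ∅
  · subst hKe
    apply cov_tails (Fintype.card V) V E X rfl hloop
    intro i
    exact le_trans (hX i) (by omega)
  obtain ⟨k, hkK, hmin⟩ := Finset.exists_min_image K (ideg E)
    (Finset.nonempty_iff_ne_empty.mpr hKe)
  by_cases hflat : K.card ≤ ideg E k
  · exact cov_flat (Fintype.card V) V E X K rfl hloop hX
      (fun v hv => le_trans hflat (hmin v hv))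
  have hkX : k ∉ X := fun h => hflat (hXK k h hkK)
  have hpos : 1 ≤ ideg E k := by
    by_contra hcon
    have h0 := hK 0
    have : k ∈ K.filter (fun v => ideg E v ≤ 0) := by
      rw [Finset.mem_filter]; exact ⟨hkK, by omega⟩
    have := Finset.card_pos.mpr ⟨k, this⟩
    omega
  obtain ⟨u₀, hu₀⟩ : ∃ u, E u k := by
    unfold ideg at hpos
    obtain ⟨u, hu⟩ := Finset.card_pos.mp (lt_of_lt_of_le Nat.zero_lt_one hpos)
    exact ⟨u, (Finset.mem_filter.mp hu).2⟩
  obtain ⟨u, huk, humin⟩ : ∃ u, E u k ∧ ∀ v ∈ X, E v k → u ∈ X ∧ od E u ≤ od E v := by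
    by_cases hne : (X.filter (fun v => E v k)).Nonempty
    · obtain ⟨u, hu, hum⟩ := Finset.exists_min_image (X.filter (fun v => E v k)) (od E) hne
      rw [Finset.mem_filter] at hu
      refine ⟨u, hu.2, ?_⟩
      intro v hv hvx
      exact ⟨hu.1, hum v (by rw [Finset.mem_filter]; exact ⟨hv, hvx⟩)⟩
    · refine ⟨u₀, hu₀, ?_⟩
      intro v hv hvx
      exact absurd ⟨v, by rw [Finset.mem_filter]; exact ⟨hv, hvx⟩⟩ hne
  have hne : u ≠ k := by rintro rfl; exact hloop _ huk
  have hc' := card_ctr (V := V) k
  apply Cov.lift hne huk (X' := pre u k X) (K' := rest k K)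
  · intro a ha; rw [mem_pre]; exact ha
  · intro a ha; rw [mem_rest]; exact ha
  apply ih (Fintype.card {v : V // v ≠ k}) (by omega) _ _ _ _ rfl (ctr_loop u k)
    (pre_strict_low hloop u k hne X hkX humin hX) (rest_weak hloop u k K hkK hmin hK)
  intro a ha haK
  rw [mem_pre] at ha
  rw [mem_rest] at haK
  have hau : a.1 ≠ u := by
    intro h
    rw [role_self u k a h] at ha
    exact hkX ha
  rw [role_other u k a hau] at ha
  have h1 := hXK a.1 ha haK
  have h2 := ctr_ideg_le hloop u k a
  rw [card_rest, Finset.card_erase_of_mem hkK]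
  omega

open Classical in
/-- the reversed form -/
theorem cov_fp2' (V : Type) [Fintype V] (E : V → V → Prop) (X K : Finset V)
    (hloop : ∀ v, ¬ E v v) (hX : Weak (od E) X) (hK : Strict (ideg E) K)
    (hXK : ∀ v ∈ X, v ∈ K → X.card ≤ od E v) : Cov E X K := by
  apply flip_iff.mp
  apply cov_fp2 (Fintype.card V) V (fun a b => E b a) K X rfl hloop
  · exact hK
  · exact hX
  · intro v h1 h2
    exact hXK v h2 h1

end Pool.Agent.NashF
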