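import Mathlib
import Pool.Agent.NashF.Red

/-!
# Combining two matchings inside an acyclic digraph

`cov_union`: `f` leaves every vertex of `X`, `g` enters every vertex of `K`, both are functional
and injective, and one height function increases along both. Then some linear forest inside the
union leaves every vertex of `X` and enters every vertex of `K` (Mendelsohn and Dulmage).
-/

set_option autoImplicit false

namespace Pool.Agent.NashF

universe w

/-- the tails which switch from `f` to `g` -/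
inductive Sw {V : Type w} (f g : V → V → Prop) (K : Finset V) : V → Prop
  | base (a k : V) (h1 : g a k) (h2 : k ∈ K) (h3 : ∀ c, ¬ f c k) : Sw f g K a
  | step (a c k : V) (h0 : Sw f g K c) (h1 : f c k) (h2 : k ∈ K) (h3 : g a k) : Sw f g K a

theorem cov_union {V : Type w} (E f g : V → V → Prop) (X K : Finset V)
    (hfE : ∀ a b, f a b → E a b) (hgE : ∀ a b, g a b → E a b)
    (hff : ∀ a b c, f a b → f a c → b = c) (hfi : ∀ a b c, f a c → f b c → a = b)
    (hgf : ∀ a b c, g a b → g a c → b = c) (hgi : ∀ a b c, g a c → g b c → a = b)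
    (hX : ∀ x ∈ X, ∃ b, f x b) (hK : ∀ k ∈ K, ∃ a, g a k)
    (h : V → ℕ) (hf : ∀ a b, f a b → h a < h b) (hg : ∀ a b, g a b → h a < h b) :
    Cov E X K := by
  classical
  -- a switching tail and its `g`-head
  have key : ∀ a b, Sw f g K a → g a b → b ∈ K ∧
      ((∀ c, ¬ f c b) ∨ ∃ c, Sw f g K c ∧ f c b) := by
    intro a b ha hab
    cases ha with
    | base _ k h1 h2 h3 =>
      have : k = b := hgf _ _ _ h1 hab
      subst this
      exact ⟨h2, Or.inl h3⟩
    | step _ c k h0 h1 h2 h3 =>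
      have : k = b := hgf _ _ _ h3 hab
      subst this
      exact ⟨h2, Or.inr ⟨c, h0, h1⟩⟩
  refine ⟨fun a b => (Sw f g K a ∧ g a b) ∨ (¬ Sw f g K a ∧ f a b), ⟨?_, ?_, ?_, ⟨h, ?_⟩⟩, ?_, ?_⟩
  · rintro a b (⟨_, h1⟩ | ⟨_, h1⟩)
    · exact hgE _ _ h1
    · exact hfE _ _ h1
  · rintro a b c (⟨h1, h2⟩ | ⟨h1, h2⟩) (⟨h3, h4⟩ | ⟨h3, h4⟩)
    · exact hgf _ _ _ h2 h4
    · exact absurd h1 h3
    · exact absurd h3 h1
    · exact hff _ _ _ h2 h4
  · rintro a b c (⟨h1, h2⟩ | ⟨h1, h2⟩) (⟨h3, h4⟩ | ⟨h3, h4⟩)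
    · exact hgi _ _ _ h2 h4
    · exfalso
      rcases (key a c h1 h2).2 with h5 | ⟨d, h5, h6⟩
      · exact h5 _ h4
      · have : d = b := hfi _ _ _ h6 h4
        subst this
        exact h3 h5
    · exfalso
      rcases (key b c h3 h4).2 with h5 | ⟨d, h5, h6⟩
      · exact h5 _ h2
      · have : d = a := hfi _ _ _ h6 h2
        subst this
        exact h1 h5
    · exact hfi _ _ _ h2 h4
  · rintro a b (⟨_, h1⟩ | ⟨_, h1⟩)
    · exact hg _ _ h1
    · exact hf _ _ h1
  · intro x hx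
    by_cases hs : Sw f g K x
    · have : ∃ b, g x b := by
        cases hs with
        | base _ k h1 _ _ => exact ⟨k, h1⟩
        | step _ c k _ _ _ h3 => exact ⟨k, h3⟩
      obtain ⟨b, hb⟩ := this
      exact ⟨b, Or.inl ⟨hs, hb⟩⟩
    · obtain ⟨b, hb⟩ := hX x hx
      exact ⟨b, Or.inr ⟨hs, hb⟩⟩
  · intro k hk
    obtain ⟨a, ha⟩ := hK k hk
    by_cases hs : Sw f g K a
    · exact ⟨a, Or.inl ⟨hs, ha⟩⟩
    · by_cases hc : ∃ c, f c k
      · obtain ⟨c, hc⟩ := hc
        refine ⟨c, Or.inr ⟨?_, hc⟩⟩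
        intro hsc
        exact hs (Sw.step a c k hsc hc hk ha)
      · push Not at hc
        exact absurd (Sw.base a k ha hk hc) hs

end Pool.Agent.NashF
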