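import Mathlib
import Pool.Agent.NashF.Flat2

/-!
# Linear forests: the mixed condition

`cov_mx`: the outdegrees in `X` and the indegrees in `K` satisfy the strict condition, and every
vertex `v` in both sets has outdegree at least `|X| + 1` or indegree at least `|K| + 1`. Then some
linear forest leaves every vertex of `X` and enters every vertex of `K`.
-/

set_option autoImplicit false

namespace Pool.Agent.NashF

open Finset Pool.Agent.NashW

open Classical in
/-- general degree condition: for every `i` the set of the elements of `X` of degree at most `i` is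
empty or has at most `i - s` elements -/
def Lev {V : Type} (s : ℕ) (deg : V → ℕ) (X : Finset V) : Prop :=
  ∀ i, (X.filter (fun v => deg v ≤ i)).card = 0 ∨ (X.filter (fun v => deg v ≤ i)).card + s ≤ i

theorem lev_strict {V : Type} {deg : V → ℕ} {X : Finset V} : Strict deg X ↔ Lev 1 deg X := by
  classical
  constructor
  · intro h i
    have := h i
    by_cases h0 : (X.filter (fun v => deg v ≤ i)).card = 0
    · exact Or.inl h0
    · right; omega
  · intro h i
    rcases h i with h1 | h1
    · omega
    · omega

theorem lev_weak {V : Type} {deg : V → ℕ} {X : Finset V} : Weak deg X ↔ Lev 0 deg X := by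
  classical
  constructor
  · intro h i
    have := h i
    right; omega
  · intro h i
    rcases h i with h1 | h1
    · omega
    · omega

open Classical in
/-- the degree condition after removal of the elements of `U`, when the elements of degree at least
`m` lose at most as much as there are elements of `U` of degree at most `m`, plus `t` -/
theorem lev_drop {V V' : Type} (s t : ℕ) (d : V → ℕ) (d' : V' → ℕ) (X U : Finset V)
    (X' : Finset V') (r : V' → V) (hr : Function.Injective r) (hX : Lev (s + t) d X) (hU : U ⊆ X)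
    (hdis : ∀ a ∈ X', r a ∉ U)
    (h : ∀ a ∈ X', X'.card + s ≤ d' a ∨
      (r a ∈ X ∧ d (r a) ≤ d' a + t + (U.filter (fun z => d z ≤ d (r a))).card)) :
    Lev s d' X' := by
  intro i
  by_cases hi : X'.card + s ≤ i
  · right
    have := Finset.card_filter_le X' (fun v => d' v ≤ i)
    omega
  by_cases hS : (X'.filter (fun v => d' v ≤ i)) = ∅
  · left; rw [hS]; rfl
  right
  have hne : (X'.filter (fun v => d' v ≤ i)).card ≠ 0 := by
    rw [Ne, Finset.card_eq_zero]; exact hS
  obtain ⟨a, ha, hmax⟩ := Finset.exists_max_image (X'.filter (fun v => d' v ≤ i))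
    (fun a => d (r a)) (Finset.nonempty_iff_ne_empty.mpr hS)
  have hlow : ∀ b ∈ X'.filter (fun v => d' v ≤ i), r b ∈ X ∧
      d (r b) ≤ i + t + (U.filter (fun z => d z ≤ d (r b))).card := by
    intro b hb
    rw [Finset.mem_filter] at hb
    rcases h b hb.1 with h1 | h1
    · omega
    · exact ⟨h1.1, by omega⟩
  have hsub : (X'.filter (fun v => d' v ≤ i)).image r ⊆
      (X.filter (fun v => d v ≤ d (r a))) \ (U.filter (fun z => d z ≤ d (r a))) := by
    intro v hv
    rw [Finset.mem_image] at hv
    obtain ⟨b, hb, rfl⟩ := hv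
    rw [Finset.mem_sdiff, Finset.mem_filter, Finset.mem_filter]
    exact ⟨⟨(hlow b hb).1, hmax b hb⟩, fun h => hdis b (Finset.mem_filter.mp hb).1 h.1⟩
  have h1 := Finset.card_le_card hsub
  rw [Finset.card_image_of_injective _ hr,
    Finset.card_sdiff_of_subset (Finset.filter_subset_filter _ hU)] at h1
  have h2 := (hlow a ha).2
  have h4 : (U.filter (fun z => d z ≤ d (r a))).card ≤ (X.filter (fun v => d v ≤ d (r a))).card :=
    Finset.card_le_card (Finset.filter_subset_filter _ hU)
  rcases hX (d (r a)) with h5 | h5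
  · omega
  · omega

open Classical in
theorem one_le_fil {V : Type} {d : V → ℕ} {U : Finset V} {m : ℕ} {z : V} (hz : z ∈ U)
    (h : d z ≤ m) : 1 ≤ (U.filter (fun z => d z ≤ m)).card :=
  Finset.card_pos.mpr ⟨z, by rw [Finset.mem_filter]; exact ⟨hz, h⟩⟩

open Classical in
theorem two_le_fil {V : Type} {d : V → ℕ} {U : Finset V} {m : ℕ} {z z' : V} (hz : z ∈ U)
    (hz' : z' ∈ U) (hne : z ≠ z') (h : d z ≤ m) (h' : d z' ≤ m) :
    2 ≤ (U.filter (fun z => d z ≤ m)).card :=
  Finset.one_lt_card.mpr ⟨z, by rw [Finset.mem_filter]; exact ⟨hz, h⟩, z',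
    by rw [Finset.mem_filter]; exact ⟨hz', h'⟩, hne⟩

/-- an in-neighbour of `k` of smallest outdegree in `X` -/
theorem low_nbr {V : Type} {E : V → V → Prop} (X : Finset V) (k : V) (d : V → ℕ)
    (h : ∃ u, E u k) : ∃ u, E u k ∧ ∀ v ∈ X, E v k → u ∈ X ∧ d u ≤ d v := by
  classical
  by_cases hne : (X.filter (fun v => E v k)).Nonempty
  · obtain ⟨u, hu, hum⟩ := Finset.exists_min_image (X.filter (fun v => E v k)) d hne
    rw [Finset.mem_filter] at hu
    refine ⟨u, hu.2, ?_⟩
    intro v hv hvx
    exact ⟨hu.1, hum v (by rw [Finset.mem_filter]; exact ⟨hv, hvx⟩)⟩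
  · obtain ⟨u, hu⟩ := h
    refine ⟨u, hu, ?_⟩
    intro v hv hvx
    exact absurd ⟨v, by rw [Finset.mem_filter]; exact ⟨hv, hvx⟩⟩ hne

open Classical in
/-- weak conditions, disjoint sets -/
theorem cov_ww : ∀ (n : ℕ) (V : Type) [Fintype V] (E : V → V → Prop) (X K : Finset V),
    Fintype.card V = n → (∀ v, ¬ E v v) → Weak (od E) X → Weak (ideg E) K →
    (∀ v ∈ X, v ∉ K) → Cov E X K := by
  intro n
  induction n using Nat.strong_induction_on with
  | _ n ih =>
  intro V _ E X K hcard hloop hX hK hXK
  by_cases hKe : K = ∅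
  · subst hKe
    exact cov_tails (Fintype.card V) V E X rfl hloop hX
  obtain ⟨k, hkK, hmin⟩ := Finset.exists_min_image K (ideg E)
    (Finset.nonempty_iff_ne_empty.mpr hKe)
  have hkX : k ∉ X := fun h => hXK k h hkK
  have hpos : 1 ≤ ideg E k := by
    by_contra hcon
    have h0 := hK 0
    have : k ∈ K.filter (fun v => ideg E v ≤ 0) := by
      rw [Finset.mem_filter]; exact ⟨hkK, by omega⟩
    have := Finset.card_pos.mpr ⟨k, this⟩
    omega
  obtain ⟨u₀, hu₀⟩ : ∃ u, E u k := by
    unfold ideg at hpos
    obtain ⟨u, hu⟩ := Finset.card_pos.mp (lt_of_lt_of_le Nat.zero_lt_one hpos)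
    exact ⟨u, (Finset.mem_filter.mp hu).2⟩
  obtain ⟨u, huk, humin⟩ := low_nbr (E := E) X k (od E) ⟨u₀, hu₀⟩
  have hne : u ≠ k := by rintro rfl; exact hloop _ huk
  have hc' := card_ctr (V := V) k
  have hpre : ∀ a ∈ pre u k X, a.1 ≠ u ∧ a.1 ∈ X := by
    intro a ha
    rw [mem_pre] at ha
    by_cases h : a.1 = u
    · rw [role_self u k a h] at ha
      exact absurd ha hkX
    · rw [role_other u k a h] at ha
      exact ⟨h, ha⟩
  apply Cov.lift hne huk (X' := pre u k X) (K' := rest k K)
  · intro a ha; rw [mem_pre]; exact ha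
  · intro a ha; rw [mem_rest]; exact ha
  apply ih (Fintype.card {v : V // v ≠ k}) (by omega) _ _ _ _ rfl (ctr_loop u k)
  · rw [lev_weak] at hX ⊢
    apply lev_drop 0 0 (od E) _ X (X.filter (fun v => v = u)) _ Subtype.val
      Subtype.val_injective hX (Finset.filter_subset _ _)
    · intro a ha h
      rw [Finset.mem_filter] at h
      exact (hpre a ha).1 h.2
    · intro a ha
      right
      have h1 := hpre a ha
      refine ⟨h1.2, ?_⟩
      have h2 := ctr_od_other hloop u k a h1.1
      by_cases hE : E a.1 k
      · rw [if_pos hE] at h2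
        have h3 := humin _ h1.2 hE
        have h4 : 1 ≤ ((X.filter (fun v => v = u)).filter (fun z => od E z ≤ od E a.1)).card :=
          one_le_fil (z := u) (by rw [Finset.mem_filter]; exact ⟨h3.1, rfl⟩) h3.2
        omega
      · rw [if_neg hE] at h2
        omega
  · rw [lev_weak] at hK ⊢
    apply lev_drop 0 0 (ideg E) _ K {k} _ Subtype.val
      Subtype.val_injective hK (Finset.singleton_subset_iff.mpr hkK)
    · intro a ha h
      rw [Finset.mem_singleton] at h
      exact a.2 h
    · intro a ha
      rw [mem_rest] at ha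
      right
      refine ⟨ha, ?_⟩
      have h2 := ctr_ideg_le hloop u k a
      have h4 : 1 ≤ (({k} : Finset V).filter (fun z => ideg E z ≤ ideg E a.1)).card :=
        one_le_fil (z := k) (Finset.mem_singleton_self k) (hmin _ ha)
      omega
  · intro a ha haK
    rw [mem_rest] at haK
    exact hXK _ (hpre a ha).2 haK

/-- every vertex of both sets has large outdegree or large indegree -/
def Mix {V : Type} [Fintype V] (E : V → V → Prop) (X K : Finset V) : Prop :=
  ∀ v ∈ X, v ∈ K → X.card + 1 ≤ od E v ∨ K.card + 1 ≤ ideg E v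

theorem all_low {V : Type} (K : Finset V) (d : V → ℕ) (x : V) (hx : x ∈ K)
    (hxd : K.card < d x) (h : K.card ≤ (K.filter (fun k => d k ≤ K.card)).card + 1) :
    ∀ k ∈ K, k ≠ x → d k ≤ K.card := by
  classical
  intro k hk hkx
  by_contra hcon
  have hsub : K.filter (fun k => d k ≤ K.card) ⊆ (K.erase x).erase k := by
    intro v hv
    rw [Finset.mem_filter] at hv
    rw [Finset.mem_erase, Finset.mem_erase]
    refine ⟨?_, ?_, hv.1⟩
    · rintro rfl; exact hcon hv.2
    · rintro rfl; omega
  have h1 := Finset.card_le_card hsub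
  rw [Finset.card_erase_of_mem (Finset.mem_erase.mpr ⟨hkx, hk⟩), Finset.card_erase_of_mem hx] at h1
  have h2 : 1 < K.card := Finset.one_lt_card.mpr ⟨k, hk, x, hx, hkx⟩
  omega


/-- the induction hypothesis -/
def MxBelow (n : ℕ) : Prop :=
  ∀ m < n, ∀ (V : Type) [Fintype V] (E : V → V → Prop) (X K : Finset V),
    Fintype.card V = m → (∀ v, ¬ E v v) → Strict (od E) X → Strict (ideg E) K → Mix E X K →
    Cov E X K

open Classical in
/-- no edge from a low row to a low column: contraction at the lowest row -/
theorem mx_step (n : ℕ) (ih : MxBelow n) (V : Type) [Fintype V] (E : V → V → Prop)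
    (X K : Finset V) (hcard : Fintype.card V = n) (hloop : ∀ v, ¬ E v v)
    (hX : Strict (od E) X) (hK : Strict (ideg E) K) (hmix : Mix E X K)
    (hno : ∀ u ∈ X, ∀ k ∈ K, od E u ≤ X.card → ideg E k ≤ K.card → ¬ E u k)
    (x : V) (hxX : x ∈ X) (hmin : ∀ z ∈ X, od E x ≤ od E z) (hlow : od E x ≤ X.card) :
    Cov E X K ∨ ((∀ y, E x y → y ∉ K ∧ ¬ (y ∈ X ∧ od E y ≤ X.card)) ∧ x ∈ K ∧
      ideg E x = K.card + 1 ∧ K.card ≤ (K.filter (fun k => ideg E k ≤ K.card)).card + 1) := by
  have hXpos : 1 ≤ X.card := Finset.card_pos.mpr ⟨x, hxX⟩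
  have hx2 : 2 ≤ od E x := by
    by_contra hcon
    have h0 := hX 1
    have : x ∈ X.filter (fun v => od E v ≤ 1) := by
      rw [Finset.mem_filter]; exact ⟨hxX, by omega⟩
    have := Finset.card_pos.mpr ⟨x, this⟩
    omega
  have hxK : x ∈ K → K.card + 1 ≤ ideg E x := by
    intro h
    rcases hmix x hxX h with h1 | h1
    · omega
    · exact h1
  have hhigh : ∀ u ∈ X, od E u ≤ X.card → ∀ k ∈ K, E u k → K.card + 1 ≤ ideg E k := by
    intro u hu hul k hk huk
    by_contra hcon
    exact hno u hu k hk hul (by omega) huk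
  by_cases hc1 : ∃ y, E x y ∧ y ∈ K
  · left
    obtain ⟨y, hxy, hyK⟩ := hc1
    have hne : x ≠ y := by rintro rfl; exact hloop _ hxy
    have hc' := card_ctr (V := V) y
    have hcX : (pre x y X).card = X.card - 1 := by
      rw [card_pre x y hne X, Finset.card_erase_of_mem hxX]
    have hcK : (rest y K).card = K.card - 1 := by
      rw [card_rest, Finset.card_erase_of_mem hyK]
    have hKpos : 1 ≤ K.card := Finset.card_pos.mpr ⟨y, hyK⟩
    apply Cov.lift hne hxy (X' := pre x y X) (K' := rest y K)
    · intro a ha; rw [mem_pre]; exact ha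
    · intro a ha; rw [mem_rest]; exact ha
    -- a column loses nothing or is high
    have hcol : ∀ a ∈ rest y K, (rest y K).card + 1 ≤ ideg (Ctr E x y) a ∨
        (a.1 ≠ x ∧ ideg E a.1 ≤ ideg (Ctr E x y) a) := by
      intro a ha
      rw [mem_rest] at ha
      have h1 := ctr_ideg_le hloop x y a
      by_cases hax : a.1 = x
      · left
        have h2 := hxK (hax ▸ ha)
        rw [hax] at h1
        omega
      · by_cases hxa : E x a.1
        · left
          have := hhigh x hxX hlow _ ha hxa
          omega
        · right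
          have h2 := ctr_ideg hloop x y a hax
          rw [if_neg hxa] at h2
          exact ⟨hax, by omega⟩
    apply ih (Fintype.card {v : V // v ≠ y}) (by omega) _ _ _ _ rfl (ctr_loop x y)
      (pre_strict hloop x y hne X hxX hmin hX)
    · rw [lev_strict] at hK ⊢
      apply lev_drop 1 0 (ideg E) _ K ∅ _ Subtype.val Subtype.val_injective hK
        (Finset.empty_subset _)
      · intro a _ h
        simp at h
      · intro a ha
        rcases hcol a ha with h | h
        · exact Or.inl h
        · right
          rw [mem_rest] at ha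
          exact ⟨ha, by omega⟩
    · intro a ha haK
      rcases hcol a haK with h | h
      · exact Or.inr h
      · rw [mem_pre, role_other x y a h.1] at ha
        rw [mem_rest] at haK
        rcases hmix _ ha haK with h1 | h1
        · left
          have h2 := role_od hloop x y hne a
          rw [role_other x y a h.1] at h2
          omega
        · right
          omega
  push Not at hc1
  by_cases hc2 : ∃ y, E x y ∧ (x ∈ K → E y x → ideg E x = K.card + 1 →
      (¬ (y ∈ X ∧ od E y ≤ X.card)) ∧ (K.filter (fun k => ideg E k ≤ K.card)).card + 2 ≤ K.card)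
  · left
    obtain ⟨y, hxy, hy⟩ := hc2
    have hyK : y ∉ K := hc1 y hxy
    have hne : x ≠ y := by rintro rfl; exact hloop _ hxy
    have hc' := card_ctr (V := V) y
    have hcX : (pre x y X).card = X.card - 1 := by
      rw [card_pre x y hne X, Finset.card_erase_of_mem hxX]
    have hcK : (rest y K).card = K.card := by
      rw [card_rest, Finset.erase_eq_of_notMem hyK]
    apply Cov.lift hne hxy (X' := pre x y X) (K' := rest y K)
    · intro a ha; rw [mem_pre]; exact ha
    · intro a ha; rw [mem_rest]; exact ha
    have hcol : ∀ a ∈ rest y K, a.1 ≠ x → ideg E a.1 ≤ ideg (Ctr E x y) a := by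
      intro a ha hax
      rw [mem_rest] at ha
      have h2 := ctr_ideg hloop x y a hax
      rw [if_neg (fun h => hc1 _ h ha)] at h2
      omega
    apply ih (Fintype.card {v : V // v ≠ y}) (by omega) _ _ _ _ rfl (ctr_loop x y)
      (pre_strict hloop x y hne X hxX hmin hX)
    · -- columns
      by_cases hbad : x ∈ K ∧ E y x ∧ ideg E x = K.card + 1
      · obtain ⟨h1, h2, h3⟩ := hbad
        have h4 := (hy h1 h2 h3).2
        intro i
        by_cases hi : K.card + 1 ≤ i
        · have := Finset.card_filter_le (rest y K) (fun v => ideg (Ctr E x y) v ≤ i)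
          omega
        · by_cases hi2 : i = K.card
          · -- one new element
            have hsub : ((rest y K).filter (fun v => ideg (Ctr E x y) v ≤ i)).image Subtype.val ⊆
                insert x (K.filter (fun k => ideg E k ≤ K.card)) := by
              intro v hv
              rw [Finset.mem_image] at hv
              obtain ⟨a, ha, rfl⟩ := hv
              rw [Finset.mem_filter] at ha
              rw [Finset.mem_insert, Finset.mem_filter]
              by_cases hax : a.1 = x
              · exact Or.inl hax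
              · right
                have h5 := hcol a ha.1 hax
                exact ⟨by rw [← mem_rest]; exact ha.1, by omega⟩
            have h5 := Finset.card_le_card hsub
            rw [Finset.card_image_of_injective _ Subtype.val_injective] at h5
            have h6 := Finset.card_insert_le x (K.filter (fun k => ideg E k ≤ K.card))
            omega
          · have hsub : ((rest y K).filter (fun v => ideg (Ctr E x y) v ≤ i)).image Subtype.val ⊆
                (K.filter (fun k => ideg E k ≤ i)) := by
              intro v hv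
              rw [Finset.mem_image] at hv
              obtain ⟨a, ha, rfl⟩ := hv
              rw [Finset.mem_filter] at ha
              rw [Finset.mem_filter]
              by_cases hax : a.1 = x
              · exfalso
                have h7 := ctr_ideg_le hloop x y a
                rw [hax] at h7
                omega
              · have h5 := hcol a ha.1 hax
                exact ⟨by rw [← mem_rest]; exact ha.1, by omega⟩
            have h5 := Finset.card_le_card hsub
            rw [Finset.card_image_of_injective _ Subtype.val_injective] at h5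
            exact le_trans h5 (hK i)
      · rw [lev_strict] at hK ⊢
        apply lev_drop 1 0 (ideg E) _ K ∅ _ Subtype.val Subtype.val_injective hK
          (Finset.empty_subset _)
        · intro a _ h
          simp at h
        · intro a ha
          by_cases hax : a.1 = x
          · left
            have haK : a.1 ∈ K := by rw [← mem_rest]; exact ha
            have hxK' : x ∈ K := hax ▸ haK
            have h1 := hxK hxK'
            have h2 := ctr_ideg_self hloop x y hne
            have h3 : a = ⟨x, hne⟩ := Subtype.ext hax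
            rw [h3]
            by_cases hyx : E y x
            · rw [if_pos hyx] at h2
              have h4 : ideg E x ≠ K.card + 1 := fun h => hbad ⟨hxK', hyx, h⟩
              omega
            · rw [if_neg hyx] at h2
              omega
          · right
            have := hcol a ha hax
            rw [mem_rest] at ha
            exact ⟨ha, by omega⟩
    · intro a ha haK
      rw [mem_pre] at ha
      by_cases hax : a.1 = x
      · rw [role_self x y a hax] at ha
        have hxK' : x ∈ K := by rw [← hax, ← mem_rest]; exact haK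
        have h1 := hxK hxK'
        have h2 := ctr_ideg_self hloop x y hne
        have h3 : a = ⟨x, hne⟩ := Subtype.ext hax
        rw [h3]
        by_cases hbad : E y x ∧ ideg E x = K.card + 1
        · left
          have h4 := (hy hxK' hbad.1 hbad.2).1
          have h5 := ctr_od_self hloop x y hne
          have h6 : ¬ od E y ≤ X.card := fun h => h4 ⟨ha, h⟩
          omega
        · right
          by_cases hyx : E y x
          · rw [if_pos hyx] at h2
            have h4 : ideg E x ≠ K.card + 1 := fun h => hbad ⟨hyx, h⟩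
            omega
          · rw [if_neg hyx] at h2
            omega
      · have h1 := hcol a haK hax
        rw [role_other x y a hax] at ha
        rw [mem_rest] at haK
        rcases hmix _ ha haK with h2 | h2
        · left
          have h3 := role_od hloop x y hne a
          rw [role_other x y a hax] at h3
          omega
        · right
          omega
  push Not at hc2
  -- every out-neighbour of `x` is bad
  obtain ⟨w₀, hw₀⟩ : ∃ w, E x w := by
    unfold od at hx2
    obtain ⟨w, hw⟩ := Finset.card_pos.mp (lt_of_lt_of_le Nat.zero_lt_two hx2)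
    exact ⟨w, (Finset.mem_filter.mp hw).2⟩
  have hxK' : x ∈ K := (hc2 w₀ hw₀).1
  have hxd : ideg E x = K.card + 1 := (hc2 w₀ hw₀).2.2.1
  by_cases hc3 : ∃ y, E x y ∧ y ∈ X ∧ od E y ≤ X.card
  · left
    obtain ⟨y, hxy, hyX, hyl⟩ := hc3
    have hyx : E y x := (hc2 y hxy).2.1
    obtain ⟨u, hux, humin⟩ := low_nbr (E := E) X x (od E) ⟨y, hyx⟩
    have huX : u ∈ X := (humin y hyX hyx).1
    have hul : od E u ≤ X.card := le_trans (humin y hyX hyx).2 hyl
    obtain ⟨w, hxw, hwu⟩ : ∃ w, E x w ∧ w ≠ u := by
      unfold od at hx2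
      obtain ⟨w, hw, hwu⟩ := Finset.exists_mem_ne (lt_of_lt_of_le Nat.one_lt_two hx2) u
      exact ⟨w, (Finset.mem_filter.mp hw).2, hwu⟩
    have hwx : E w x := (hc2 w hxw).2.1
    have hwK : w ∉ K := hc1 w hxw
    have hne : x ≠ w := by rintro rfl; exact hloop _ hxw
    have hux' : u ≠ x := by rintro rfl; exact hloop _ hux
    have hc' := card_ctr (V := V) w
    have hxr : (⟨x, hne⟩ : {v : V // v ≠ w}) ∈ rest w K := by rw [mem_rest]; exact hxK'
    have hE1 : Ctr E x w ⟨u, hwu.symm⟩ ⟨x, hne⟩ := by
      refine ⟨fun h => hux' (congrArg Subtype.val h), Or.inr ⟨hux', hux⟩⟩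
    have hne1 : (⟨u, hwu.symm⟩ : {v : V // v ≠ w}) ≠ ⟨x, hne⟩ :=
      fun h => hux' (congrArg Subtype.val h)
    have hc'' := card_ctr (V := {v : V // v ≠ w}) ⟨x, hne⟩
    have hu1 : (⟨u, hwu.symm⟩ : {v : V // v ≠ w}) ∈ pre x w X := by
      rw [mem_pre, role_other x w _ hux']
      exact huX
    have hcX : (pre ⟨u, hwu.symm⟩ ⟨x, hne⟩ (pre x w X)).card + 2 = X.card := by
      rw [card_pre _ _ hne1, Finset.card_erase_of_mem hu1, card_pre x w hne,
        Finset.card_erase_of_mem hxX]
      have : 1 < X.card := Finset.one_lt_card.mpr ⟨u, huX, x, hxX, hux'⟩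
      omega
    have hcK : (rest (⟨x, hne⟩ : {v : V // v ≠ w}) (rest w K)).card + 1 = K.card := by
      rw [card_rest, Finset.card_erase_of_mem hxr, card_rest, Finset.erase_eq_of_notMem hwK]
      have : 1 ≤ K.card := Finset.card_pos.mpr ⟨x, hxK'⟩
      omega
    apply Cov.lift hne hxw (X' := pre x w X) (K' := rest w K)
    · intro a ha; rw [mem_pre]; exact ha
    · intro a ha; rw [mem_rest]; exact ha
    apply Cov.lift hne1 hE1 (X' := pre ⟨u, hwu.symm⟩ ⟨x, hne⟩ (pre x w X))
      (K' := rest ⟨x, hne⟩ (rest w K))
    · intro a ha; rw [mem_pre]; exact ha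
    · intro a ha; rw [mem_rest]; exact ha
    have hinj : Function.Injective
        (fun a : {v : {v : V // v ≠ w} // v ≠ ⟨x, hne⟩} =>
          role x w (role ⟨u, hwu.symm⟩ ⟨x, hne⟩ a)) :=
      fun a b h => role_inj _ _ (role_inj _ _ h)
    have hnx : ∀ a : {v : {v : V // v ≠ w} // v ≠ ⟨x, hne⟩},
        role x w (role ⟨u, hwu.symm⟩ ⟨x, hne⟩ a) ≠ x := fun a => role_ne x w hne _
    have hnu : ∀ a : {v : {v : V // v ≠ w} // v ≠ ⟨x, hne⟩},
        role x w (role ⟨u, hwu.symm⟩ ⟨x, hne⟩ a) ≠ u := by
      intro a h
      have h1 : role x w (role ⟨u, hwu.symm⟩ ⟨x, hne⟩ a) = role x w ⟨u, hwu.symm⟩ := by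
        rw [h, role_other x w ⟨u, hwu.symm⟩ hux']
      exact role_ne _ _ hne1 a (role_inj x w h1)
    have hd := fun a => double_od hloop x w hne ⟨u, hwu.symm⟩ hux' a
    -- columns: high or lose nothing
    have hcol : ∀ a ∈ rest (⟨x, hne⟩ : {v : V // v ≠ w}) (rest w K),
        (rest (⟨x, hne⟩ : {v : V // v ≠ w}) (rest w K)).card + 1 ≤
          ideg (Ctr (Ctr E x w) ⟨u, hwu.symm⟩ ⟨x, hne⟩) a ∨
        (a.1.1 ≠ u ∧ ideg E a.1.1 ≤ ideg (Ctr (Ctr E x w) ⟨u, hwu.symm⟩ ⟨x, hne⟩) a) := by
      intro a ha
      rw [mem_rest, mem_rest] at ha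
      have hax : a.1.1 ≠ x := fun h => a.2 (Subtype.ext h)
      have h2 := ctr_ideg hloop x w a.1 hax
      rw [if_neg (fun h => hc1 _ h ha)] at h2
      have h3 := ctr_ideg_le (ctr_loop (E := E) x w) ⟨u, hwu.symm⟩ ⟨x, hne⟩ a
      by_cases hau : a.1.1 = u
      · left
        have h4 : K.card + 1 ≤ ideg E a.1.1 := by
          rcases hmix u huX (hau ▸ ha) with h5 | h5
          · omega
          · rw [hau]; exact h5
        omega
      · by_cases hua : E u a.1.1
        · left
          have h4 := hhigh u huX hul _ ha hua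
          omega
        · right
          refine ⟨hau, ?_⟩
          have h5 := ctr_ideg (ctr_loop (E := E) x w) ⟨u, hwu.symm⟩ ⟨x, hne⟩ a
            (fun h => hau (congrArg Subtype.val h))
          rw [if_neg] at h5
          · omega
          · rintro ⟨_, ⟨h6, _⟩ | ⟨_, h6⟩⟩
            · exact hux' h6
            · exact hua h6
    apply ih (Fintype.card {v : {v : V // v ≠ w} // v ≠ ⟨x, hne⟩}) (by omega) _ _ _ _ rfl
      (ctr_loop _ _)
    · -- rows
      rw [lev_strict] at hX ⊢
      apply lev_drop 1 0 (od E) _ X {x, u} _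
        (fun a : {v : {v : V // v ≠ w} // v ≠ ⟨x, hne⟩} =>
          role x w (role ⟨u, hwu.symm⟩ ⟨x, hne⟩ a)) hinj hX
      · intro v hv
        rw [Finset.mem_insert, Finset.mem_singleton] at hv
        rcases hv with rfl | rfl
        · exact hxX
        · exact huX
      · intro a _ h
        rw [Finset.mem_insert, Finset.mem_singleton] at h
        rcases h with h | h
        · exact hnx a h
        · exact hnu a h
      · intro a ha
        rw [mem_pre, mem_pre] at ha
        right
        refine ⟨ha, ?_⟩
        have h1 := hd a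
        have hxm := hmin _ ha
        by_cases hEx : E (role x w (role ⟨u, hwu.symm⟩ ⟨x, hne⟩ a)) x
        · have h2 := (humin _ ha hEx).2
          have h3 : 2 ≤ (({x, u} : Finset V).filter (fun z => od E z ≤
              od E (role x w (role ⟨u, hwu.symm⟩ ⟨x, hne⟩ a)))).card :=
            two_le_fil (z := x) (z' := u) (by simp) (by simp) hux'.symm hxm h2
          omega
        · have h2 := h1.2 hEx hwx
          have h3 : 1 ≤ (({x, u} : Finset V).filter (fun z => od E z ≤
              od E (role x w (role ⟨u, hwu.symm⟩ ⟨x, hne⟩ a)))).card :=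
            one_le_fil (z := x) (by simp) hxm
          omega
    · rw [lev_strict] at hK ⊢
      apply lev_drop 1 0 (ideg E) _ K ∅ _
        (fun a : {v : {v : V // v ≠ w} // v ≠ ⟨x, hne⟩} => a.1.1)
        (fun a b h => Subtype.ext (Subtype.ext h)) hK (Finset.empty_subset _)
      · intro a _ h
        simp at h
      · intro a ha
        rcases hcol a ha with h | h
        · exact Or.inl h
        · right
          rw [mem_rest, mem_rest] at ha
          exact ⟨ha, by omega⟩
    · intro a ha haK
      rcases hcol a haK with h | h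
      · exact Or.inr h
      · rw [mem_rest, mem_rest] at haK
        have hax : a.1.1 ≠ x := fun h => a.2 (Subtype.ext h)
        have hr : role x w (role ⟨u, hwu.symm⟩ ⟨x, hne⟩ a) = a.1.1 := by
          rw [role_other ⟨u, hwu.symm⟩ ⟨x, hne⟩ a (fun h' => h.1 (congrArg Subtype.val h')),
            role_other x w _ hax]
        rw [mem_pre, mem_pre, hr] at ha
        rcases hmix _ ha haK with h1 | h1
        · left
          have h2 := (hd a).1
          rw [hr] at h2
          omega
        · right
          omega
  · right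
    push Not at hc3
    refine ⟨?_, hxK', hxd, ?_⟩
    · intro y hy
      refine ⟨hc1 y hy, ?_⟩
      rintro ⟨h1, h2⟩
      have := hc3 y hy h1
      omega
    · have h1 := (hc2 w₀ hw₀).2.2.2 (fun h1 => hc3 w₀ hw₀ h1)
      omega


open Classical in
/-- **The mixed theorem.** -/
theorem cov_mx_aux : ∀ n : ℕ, MxBelow n := by
  intro n
  induction n with
  | zero => intro m hm; omega
  | succ n ihn =>
  intro m hm V _ E X K hcard hloop hX hK hmix
  have ih : MxBelow m := fun j hj => ihn j (by omega)
  by_cases hflatK : ∀ k ∈ K, K.card ≤ ideg E k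
  · exact cov_flat (Fintype.card V) V E X K rfl hloop hX hflatK
  by_cases hflatX : ∀ k ∈ X, X.card ≤ od E k
  · apply flip_iff.mp
    exact cov_flat (Fintype.card V) V (fun a b => E b a) K X rfl hloop hK hflatX
  push Not at hflatK hflatX
  obtain ⟨k₀, hk₀, hk₀l⟩ := hflatK
  obtain ⟨x₀, hx₀, hx₀l⟩ := hflatX
  have hXpos : 1 ≤ X.card := Finset.card_pos.mpr ⟨x₀, hx₀⟩
  have hKpos : 1 ≤ K.card := Finset.card_pos.mpr ⟨k₀, hk₀⟩
  by_cases hno : ∀ u ∈ X, ∀ k ∈ K, od E u ≤ X.card → ideg E k ≤ K.card → ¬ E u k
  swap
  · -- a stable pair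
    have hne0 : ((X ×ˢ K).filter (fun p => od E p.1 ≤ X.card ∧ ideg E p.2 ≤ K.card ∧
        E p.1 p.2)).Nonempty := by
      push Not at hno
      obtain ⟨u, hu, k, hk, h1, h2, h3⟩ := hno
      exact ⟨(u, k), by
        rw [Finset.mem_filter, Finset.mem_product]
        exact ⟨⟨hu, hk⟩, h1, h2, h3⟩⟩
    obtain ⟨⟨c, k⟩, hck, hmin⟩ := Finset.exists_min_image _ (fun p => od E p.1 + ideg E p.2) hne0
    rw [Finset.mem_filter, Finset.mem_product] at hck
    obtain ⟨⟨hcX, hkK⟩, hcl, hkl, hE⟩ := hck
    simp only at hcX hkK hcl hkl hE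
    have hc : ∀ v ∈ X, E v k → od E c ≤ od E v := by
      intro v hv hvk
      by_contra hcon
      have := hmin (v, k) (by
        rw [Finset.mem_filter, Finset.mem_product]
        exact ⟨⟨hv, hkK⟩, by simp only; omega, hkl, hvk⟩)
      simp only at this
      omega
    have hk : ∀ z ∈ K, E c z → ideg E k ≤ ideg E z := by
      intro z hz hcz
      by_contra hcon
      have := hmin (c, z) (by
        rw [Finset.mem_filter, Finset.mem_product]
        exact ⟨⟨hcX, hz⟩, hcl, by simp only; omega, hcz⟩)
      simp only at this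
      omega
    have hne : c ≠ k := by rintro rfl; exact hloop _ hE
    have hc' := card_ctr (V := V) k
    have hcX' : (pre c k X).card = X.card - 1 := by
      rw [card_pre c k hne X, Finset.card_erase_of_mem hcX]
    have hcK' : (rest k K).card = K.card - 1 := by
      rw [card_rest, Finset.card_erase_of_mem hkK]
    -- the merged vertex
    have hrow : ∀ a : {v : V // v ≠ k}, a.1 = c → a ∈ pre c k X →
        (pre c k X).card + 1 ≤ od (Ctr E c k) a := by
      intro a hac ha
      rw [mem_pre, role_self c k a hac] at ha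
      have h1 := role_od hloop c k hne a
      rw [role_self c k a hac] at h1
      rcases hmix k ha hkK with h2 | h2
      · omega
      · omega
    have hcolm : ∀ a : {v : V // v ≠ k}, a.1 = c → a ∈ rest k K →
        (rest k K).card + 1 ≤ ideg (Ctr E c k) a := by
      intro a hac ha
      rw [mem_rest, hac] at ha
      have h1 := ctr_ideg_le hloop c k a
      rw [hac] at h1
      rcases hmix c hcX ha with h2 | h2
      · omega
      · omega
    apply Cov.lift hne hE (X' := pre c k X) (K' := rest k K)
    · intro a ha; rw [mem_pre]; exact ha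
    · intro a ha; rw [mem_rest]; exact ha
    apply ih (Fintype.card {v : V // v ≠ k}) (by omega) _ _ _ _ rfl (ctr_loop c k)
    · rw [lev_strict] at hX ⊢
      apply lev_drop 1 0 (od E) _ X {c} _ (role c k) (role_inj c k) hX
        (Finset.singleton_subset_iff.mpr hcX)
      · intro a _ h
        rw [Finset.mem_singleton] at h
        exact role_ne c k hne a h
      · intro a ha
        by_cases hac : a.1 = c
        · exact Or.inl (hrow a hac ha)
        · right
          rw [mem_pre, role_other c k a hac] at ha
          rw [role_other c k a hac]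
          refine ⟨ha, ?_⟩
          have h2 := ctr_od_other hloop c k a hac
          by_cases hak : E a.1 k
          · rw [if_pos hak] at h2
            have h3 : 1 ≤ (({c} : Finset V).filter (fun z => od E z ≤ od E a.1)).card :=
              one_le_fil (z := c) (by simp) (hc _ ha hak)
            omega
          · rw [if_neg hak] at h2
            omega
    · rw [lev_strict] at hK ⊢
      apply lev_drop 1 0 (ideg E) _ K {k} _ Subtype.val Subtype.val_injective hK
        (Finset.singleton_subset_iff.mpr hkK)
      · intro a _ h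
        rw [Finset.mem_singleton] at h
        exact a.2 h
      · intro a ha
        by_cases hac : a.1 = c
        · exact Or.inl (hcolm a hac ha)
        · right
          rw [mem_rest] at ha
          refine ⟨ha, ?_⟩
          have h2 := ctr_ideg hloop c k a hac
          by_cases hak : E c a.1
          · rw [if_pos hak] at h2
            have h3 : 1 ≤ (({k} : Finset V).filter (fun z => ideg E z ≤ ideg E a.1)).card :=
              one_le_fil (z := k) (by simp) (hk _ ha hak)
            omega
          · rw [if_neg hak] at h2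
            omega
    · intro a ha haK
      by_cases hac : a.1 = c
      · exact Or.inr (hcolm a hac haK)
      · rw [mem_pre, role_other c k a hac] at ha
        rw [mem_rest] at haK
        rcases hmix _ ha haK with h2 | h2
        · left
          have h3 := role_od hloop c k hne a
          rw [role_other c k a hac] at h3
          omega
        · right
          have h3 := ctr_ideg_le hloop c k a
          omega
  -- the lowest row and the lowest column
  obtain ⟨x, hxX, hxmin⟩ := Finset.exists_min_image X (od E) ⟨x₀, hx₀⟩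
  obtain ⟨k, hkK, hkmin⟩ := Finset.exists_min_image K (ideg E) ⟨k₀, hk₀⟩
  have hxl : od E x ≤ X.card := le_trans (hxmin _ hx₀) (by omega)
  have hkl : ideg E k ≤ K.card := le_trans (hkmin _ hk₀) (by omega)
  rcases mx_step m ih V E X K hcard hloop hX hK hmix hno x hxX hxmin hxl with h | h
  · exact h
  obtain ⟨hx1, hxK, hxd, hxc⟩ := h
  have hmix' : Mix (fun a b => E b a) K X := fun v h1 h2 => (hmix v h2 h1).symm
  rcases mx_step m ih V (fun a b => E b a) K X hcard hloop hK hX hmix'
    (fun u hu k hk h1 h2 h3 => hno k hk u hu h2 h1 h3) k hkK hkmin hkl with h | h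
  · exact flip_iff.mp h
  obtain ⟨hk1, hkX, hkd, hkc⟩ := h
  have hkd' : od E k = X.card + 1 := hkd
  have hKlow := all_low K (ideg E) x hxK (by omega) hxc
  have hXlow := all_low X (od E) k hkX (by omega) hkc
  have hxk : x ≠ k := by rintro rfl; omega
  have hx2 : 2 ≤ od E x := by
    by_contra hcon
    have h0 := hX 1
    have : x ∈ X.filter (fun v => od E v ≤ 1) := by
      rw [Finset.mem_filter]; exact ⟨hxX, by omega⟩
    have := Finset.card_pos.mpr ⟨x, this⟩
    omega
  have hk2 : 2 ≤ ideg E k := by
    by_contra hcon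
    have h0 := hK 1
    have : k ∈ K.filter (fun v => ideg E v ≤ 1) := by
      rw [Finset.mem_filter]; exact ⟨hkK, by omega⟩
    have := Finset.card_pos.mpr ⟨k, this⟩
    omega
  obtain ⟨w, hxw⟩ : ∃ w, E x w := by
    unfold od at hx2
    obtain ⟨w, hw⟩ := Finset.card_pos.mp (lt_of_lt_of_le Nat.zero_lt_two hx2)
    exact ⟨w, (Finset.mem_filter.mp hw).2⟩
  obtain ⟨o, hok, how⟩ : ∃ o, E o k ∧ o ≠ w := by
    unfold ideg at hk2
    obtain ⟨o, ho, how⟩ := Finset.exists_mem_ne (lt_of_lt_of_le Nat.one_lt_two hk2) w
    exact ⟨o, (Finset.mem_filter.mp ho).2, how⟩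
  have hwK : w ∉ K := (hx1 w hxw).1
  have hwk : w ≠ k := fun h => hwK (h ▸ hkK)
  have hwX : w ∉ X := by
    intro h
    exact (hx1 w hxw).2 ⟨h, hXlow w h hwk⟩
  have hoX : o ∉ X := (hk1 o hok).1
  have hox : o ≠ x := fun h => hoX (h ▸ hxX)
  have hoK : o ∉ K := by
    intro h
    exact (hk1 o hok).2 ⟨h, hKlow o h hox⟩
  have hxw' : x ≠ w := by rintro rfl; exact hloop _ hxw
  have hok' : o ≠ k := by rintro rfl; exact hloop _ hok
  have hnok : (⟨o, how⟩ : {v : V // v ≠ w}) ≠ ⟨k, hwk.symm⟩ :=
    fun h => hok' (congrArg Subtype.val h)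
  have hE1 : Ctr E x w ⟨o, how⟩ ⟨k, hwk.symm⟩ := ⟨hnok, Or.inr ⟨hox, hok⟩⟩
  have ho1 : (⟨o, how⟩ : {v : V // v ≠ w}) ∉ pre x w X := by
    rw [mem_pre, role_other x w _ hox]
    exact hoX
  have hk1' : (⟨k, hwk.symm⟩ : {v : V // v ≠ w}) ∈ rest w K := by rw [mem_rest]; exact hkK
  have hcX : (pre ⟨o, how⟩ ⟨k, hwk.symm⟩ (pre x w X)).card + 1 = X.card := by
    rw [card_pre _ _ hnok, Finset.erase_eq_of_notMem ho1, card_pre x w hxw',
      Finset.card_erase_of_mem hxX]
    omega
  have hcK : (rest (⟨k, hwk.symm⟩ : {v : V // v ≠ w}) (rest w K)).card + 1 = K.card := by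
    rw [card_rest, Finset.card_erase_of_mem hk1', card_rest, Finset.erase_eq_of_notMem hwK]
    omega
  apply Cov.lift hxw' hxw (X' := pre x w X) (K' := rest w K)
  · intro a ha; rw [mem_pre]; exact ha
  · intro a ha; rw [mem_rest]; exact ha
  apply Cov.lift hnok hE1 (X' := pre ⟨o, how⟩ ⟨k, hwk.symm⟩ (pre x w X))
    (K' := rest ⟨k, hwk.symm⟩ (rest w K))
  · intro a ha; rw [mem_pre]; exact ha
  · intro a ha; rw [mem_rest]; exact ha
  -- the rows of the contraction
  have hrows : ∀ a ∈ pre (⟨o, how⟩ : {v : V // v ≠ w}) ⟨k, hwk.symm⟩ (pre x w X),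
      (a.1.1 = o ∧ role x w (role ⟨o, how⟩ ⟨k, hwk.symm⟩ a) = k) ∨
      (a.1.1 ≠ o ∧ a.1.1 ≠ x ∧ a.1.1 ∈ X ∧ role x w (role ⟨o, how⟩ ⟨k, hwk.symm⟩ a) = a.1.1) := by
    intro a ha
    rw [mem_pre, mem_pre] at ha
    by_cases hao : a.1 = ⟨o, how⟩
    · left
      refine ⟨congrArg Subtype.val hao, ?_⟩
      rw [role_self (⟨o, how⟩ : {v : V // v ≠ w}) ⟨k, hwk.symm⟩ a hao,
        role_other x w _ hxk.symm]
    · right
      rw [role_other (⟨o, how⟩ : {v : V // v ≠ w}) ⟨k, hwk.symm⟩ a hao] at ha ⊢
      by_cases hax : a.1.1 = x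
      · rw [role_self x w _ hax] at ha
        exact absurd ha hwX
      · rw [role_other x w _ hax] at ha ⊢
        exact ⟨fun h => hao (Subtype.ext h), hax, ha, rfl⟩
  have hnk : ∀ a : {v : {v : V // v ≠ w} // v ≠ ⟨k, hwk.symm⟩}, a.1.1 ≠ k :=
    fun a h => a.2 (Subtype.ext h)
  apply cov_ww _ _ _ _ _ rfl (ctr_loop _ _)
  · rw [lev_weak]
    rw [lev_strict] at hX
    apply lev_drop 0 1 (od E) _ X {x} _
      (fun a : {v : {v : V // v ≠ w} // v ≠ ⟨k, hwk.symm⟩} =>
        role x w (role ⟨o, how⟩ ⟨k, hwk.symm⟩ a))
      (fun a b h => role_inj _ _ (role_inj _ _ h)) hX (Finset.singleton_subset_iff.mpr hxX)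
    · intro a _ h
      rw [Finset.mem_singleton] at h
      exact role_ne x w hxw' _ h
    · intro a ha
      have h1 := role_od (ctr_loop (E := E) x w) ⟨o, how⟩ ⟨k, hwk.symm⟩ hnok a
      have h2 := role_od hloop x w hxw' (role ⟨o, how⟩ ⟨k, hwk.symm⟩ a)
      rcases hrows a ha with h | h
      · left
        rw [h.2] at h2
        omega
      · right
        rw [h.2.2.2]
        refine ⟨h.2.2.1, ?_⟩
        rw [h.2.2.2] at h2
        have h3 : 1 ≤ (({x} : Finset V).filter (fun z => od E z ≤ od E a.1.1)).card :=
          one_le_fil (z := x) (by simp) (hxmin _ h.2.2.1)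
        omega
  · rw [lev_weak]
    rw [lev_strict] at hK
    apply lev_drop 0 1 (ideg E) _ K {k} _
      (fun a : {v : {v : V // v ≠ w} // v ≠ ⟨k, hwk.symm⟩} => a.1.1)
      (fun a b h => Subtype.ext (Subtype.ext h)) hK (Finset.singleton_subset_iff.mpr hkK)
    · intro a _ h
      rw [Finset.mem_singleton] at h
      exact hnk a h
    · intro a ha
      have h1 := ctr_ideg_le (ctr_loop (E := E) x w) ⟨o, how⟩ ⟨k, hwk.symm⟩ a
      have h2 := ctr_ideg_le hloop x w a.1
      rw [mem_rest, mem_rest] at ha
      right
      refine ⟨ha, ?_⟩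
      have h3 : 1 ≤ (({k} : Finset V).filter (fun z => ideg E z ≤ ideg E a.1.1)).card :=
        one_le_fil (z := k) (by simp) (hkmin _ ha)
      omega
  · intro a ha haK
    rw [mem_rest, mem_rest] at haK
    rcases hrows a ha with h | h
    · exact hoK (h.1 ▸ haK)
    · have h1 := hXlow _ h.2.2.1 (hnk a)
      have h2 := hKlow _ haK h.2.1
      rcases hmix _ h.2.2.1 haK with h3 | h3
      · omega
      · omega

/-- **The mixed theorem.** Strict conditions on the outdegrees in `X` and on the indegrees in `K`;
every vertex of both sets has outdegree at least `|X| + 1` or indegree at least `|K| + 1`. -/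
theorem cov_mx (V : Type) [Fintype V] (E : V → V → Prop) (X K : Finset V)
    (hloop : ∀ v, ¬ E v v) (hX : Strict (od E) X) (hK : Strict (ideg E) K)
    (hmix : ∀ v ∈ X, v ∈ K → X.card + 1 ≤ od E v ∨ K.card + 1 ≤ ideg E v) : Cov E X K :=
  cov_mx_aux (Fintype.card V + 1) (Fintype.card V) (by omega) V E X K rfl hloop hX hK hmix

end Pool.Agent.NashF
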